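import Mathlib

set_option autoImplicit false

/-!
Elementary sieve with at most two forbidden residue classes modulo each modulus.
-/

namespace Pool.Agent.DSRat

open Finset

/-- The number of `s < n` such that `α + β s` avoids the bad residues modulo every `m ∈ T`. -/
noncomputable def cnt (B : (m : ℕ) → Finset (ZMod m)) (T : Finset ℕ) (α β : ℤ) (n : ℕ) : ℕ := by
  classical
  exact ((range n).filter (fun s : ℕ => ∀ m ∈ T, ((α + β * (s : ℤ) : ℤ) : ZMod m) ∉ B m)).card

/-- the density -/
noncomputable def dens (B : (m : ℕ) → Finset (ZMod m)) (T : Finset ℕ) : ℝ :=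
  ∏ m ∈ T, (1 - ((B m).card : ℝ) / (m : ℝ))

lemma dens_nonneg (B : (m : ℕ) → Finset (ZMod m)) (T : Finset ℕ)
    (hT : ∀ m ∈ T, 0 < m) : 0 ≤ dens B T := by
  unfold dens
  apply Finset.prod_nonneg
  intro m hm
  have h0 := hT m hm
  have : NeZero m := ⟨h0.ne'⟩
  have h1 : (B m).card ≤ m := by
    have := Finset.card_le_univ (B m)
    rwa [ZMod.card] at this
  have h2 : ((B m).card : ℝ) ≤ m := by exact_mod_cast h1
  have h3 : (0 : ℝ) < m := by exact_mod_cast h0
  have := (div_le_one h3).2 h2
  linarith

lemma dens_le_one (B : (m : ℕ) → Finset (ZMod m)) (T : Finset ℕ)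
    (hT : ∀ m ∈ T, 0 < m) : dens B T ≤ 1 := by
  unfold dens
  apply Finset.prod_le_one
  · intro m hm
    have h0 := hT m hm
    have : NeZero m := ⟨h0.ne'⟩
    have h1 : (B m).card ≤ m := by
      have := Finset.card_le_univ (B m)
      rwa [ZMod.card] at this
    have h2 : ((B m).card : ℝ) ≤ m := by exact_mod_cast h1
    have h3 : (0 : ℝ) < m := by exact_mod_cast h0
    have := (div_le_one h3).2 h2
    linarith
  · intro m hm
    have : 0 ≤ ((B m).card : ℝ) / (m : ℝ) := by positivity
    linarith

/-- number of `s < n` with `s ≡ c [MOD m]` is within 1 of `n / m`. -/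
lemma card_class (m c n : ℕ) (hm : 0 < m) (hc : c < m) :
    ∃ N : ℕ, (∀ s' : ℕ, s' < N ↔ c + m * s' < n) ∧ |(N : ℝ) - (n : ℝ) / m| ≤ 1 := by
  refine ⟨(n + (m - 1) - c) / m, ?_, ?_⟩
  · intro s'
    rw [Nat.lt_iff_add_one_le, Nat.le_div_iff_mul_le hm]
    have : (s' + 1) * m = m * s' + m := by ring
    rw [this]
    omega
  · have hm' : (0 : ℝ) < m := by exact_mod_cast hm
    have h1 : m * ((n + (m - 1) - c) / m) ≤ n + (m - 1) - c := Nat.mul_div_le _ _
    have h2 : n + (m - 1) - c < m * ((n + (m - 1) - c) / m) + m := by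
      have := Nat.lt_mul_div_succ (n + (m - 1) - c) hm
      have h3 : m * ((n + (m - 1) - c) / m + 1) = m * ((n + (m - 1) - c) / m) + m := by ring
      rw [h3] at this
      exact this
    set k := (n + (m - 1) - c) / m with hk
    have h1' : m * k + 1 ≤ n + m := by omega
    have h2' : n ≤ m * k + m := by omega
    have h1r : (m : ℝ) * k + 1 ≤ n + m := by exact_mod_cast h1'
    have h2r : (n : ℝ) ≤ m * k + m := by exact_mod_cast h2'
    rw [abs_le]
    constructor
    · rw [neg_le_sub_iff_le_add, div_le_iff₀ hm']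
      nlinarith
    · rw [sub_le_iff_le_add, ← sub_le_iff_le_add', le_div_iff₀ hm']
      nlinarith

/-- The sieve estimate. -/
theorem sieve (B : (m : ℕ) → Finset (ZMod m)) (T : Finset ℕ) :
    (∀ m ∈ T, 0 < m) → (∀ m ∈ T, (B m).card ≤ 2) →
    ((T : Set ℕ).Pairwise Nat.Coprime) →
    ∀ (α β : ℤ) (n : ℕ), (∀ m ∈ T, IsCoprime β (m : ℤ)) →
      |(cnt B T α β n : ℝ) - dens B T * n| ≤ 3 ^ T.card - 1 := by
  classical
  induction T using Finset.induction_on with
  | empty =>
    intro _ _ _ α β n _
    simp [cnt, dens]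
  | insert m T hmT ih =>
    intro hpos hB hcop α β n hβ
    have hpos' : ∀ m' ∈ T, 0 < m' := fun m' h => hpos m' (Finset.mem_insert_of_mem h)
    have hB' : ∀ m' ∈ T, (B m').card ≤ 2 := fun m' h => hB m' (Finset.mem_insert_of_mem h)
    have hcop' : (T : Set ℕ).Pairwise Nat.Coprime := hcop.mono (by simp)
    have ih' := ih hpos' hB' hcop'
    have hm0 : 0 < m := hpos m (Finset.mem_insert_self _ _)
    have : NeZero m := ⟨hm0.ne'⟩
    have hβm : IsCoprime β (m : ℤ) := hβ m (Finset.mem_insert_self _ _)
    have hβT : ∀ m' ∈ T, IsCoprime β (m' : ℤ) := fun m' h => hβ m' (Finset.mem_insert_of_mem h)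
    -- the residue class solving `α + β s = b`
    have hunit : IsUnit ((β : ℤ) : ZMod m) := by
      rw [ZMod.coe_int_isUnit_iff_isCoprime]
      exact hβm.symm
    obtain ⟨ub, hub⟩ := hunit
    -- splitting the count
    set S0 : Finset ℕ := (range n).filter
      (fun s : ℕ => ∀ m' ∈ T, ((α + β * (s : ℤ) : ℤ) : ZMod m') ∉ B m') with hS0
    have hsplit : cnt B (insert m T) α β n + ∑ b ∈ B m,
        (S0.filter (fun s : ℕ => ((α + β * (s : ℤ) : ℤ) : ZMod m) = b)).card
        = cnt B T α β n := by
      have h1 : cnt B T α β n = S0.card := by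
        simp only [cnt, hS0]
      have h2 : cnt B (insert m T) α β n =
          (S0.filter (fun s : ℕ => ((α + β * (s : ℤ) : ℤ) : ZMod m) ∉ B m)).card := by
        simp only [cnt, hS0, Finset.filter_filter]
        congr 1
        apply Finset.filter_congr
        intro s _
        simp only [Finset.mem_insert, forall_eq_or_imp]
        tauto
      have h3 : (S0.filter (fun s : ℕ => ((α + β * (s : ℤ) : ℤ) : ZMod m) ∈ B m)).card =
          ∑ b ∈ B m, (S0.filter (fun s : ℕ => ((α + β * (s : ℤ) : ℤ) : ZMod m) = b)).card := by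
        rw [Finset.card_eq_sum_card_fiberwise
          (f := fun s : ℕ => ((α + β * (s : ℤ) : ℤ) : ZMod m)) (t := B m)]
        · apply Finset.sum_congr rfl
          intro b hb
          congr 1
          ext s
          simp only [Finset.mem_filter]
          constructor
          · rintro ⟨⟨h1, _⟩, h3⟩
            exact ⟨h1, h3⟩
          · rintro ⟨h1, h3⟩
            exact ⟨⟨h1, by rw [h3]; exact hb⟩, h3⟩
        · intro s hs
          simp only [Finset.coe_filter, Set.mem_ofPred_eq] at hs
          exact hs.2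
      rw [h1, h2, ← h3, add_comm]
      exact Finset.card_filter_add_card_filter_not _
    -- each class
    have hclass : ∀ b ∈ B m, |((S0.filter
        (fun s : ℕ => ((α + β * (s : ℤ) : ℤ) : ZMod m) = b)).card : ℝ) - dens B T * n / m|
        ≤ 3 ^ T.card := by
      intro b _
      set c : ℕ := (((ub⁻¹ : (ZMod m)ˣ) : ZMod m) * (b - (α : ZMod m))).val with hc
      have hcm : c < m := ZMod.val_lt _
      have hcval : ((c : ℕ) : ZMod m) = ((ub⁻¹ : (ZMod m)ˣ) : ZMod m) * (b - (α : ZMod m)) := by
        rw [hc, ZMod.natCast_zmod_val]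
      obtain ⟨N, hN1, hN2⟩ := card_class m c n hm0 hcm
      have hcond : ∀ s : ℕ, (((α + β * (s : ℤ) : ℤ) : ZMod m) = b) ↔ s % m = c := by
        intro s
        have e1 : (((α + β * (s : ℤ) : ℤ) : ZMod m) = b) ↔ ((s : ℕ) : ZMod m) = (c : ZMod m) := by
          rw [hcval]
          push_cast
          rw [← hub]
          constructor
          · intro h
            rw [← h]
            have : ((ub⁻¹ : (ZMod m)ˣ) : ZMod m) * ((α : ZMod m) + (ub : ZMod m) * (s : ZMod m)
                - (α : ZMod m)) = (((ub⁻¹ : (ZMod m)ˣ) : ZMod m) * (ub : ZMod m)) * (s : ZMod m) := by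
              ring
            rw [this, Units.inv_mul, one_mul]
          · intro h
            rw [h]
            have : (α : ZMod m) + (ub : ZMod m) * (((ub⁻¹ : (ZMod m)ˣ) : ZMod m) *
                (b - (α : ZMod m))) = (α : ZMod m) + ((ub : ZMod m) *
                ((ub⁻¹ : (ZMod m)ˣ) : ZMod m)) * (b - (α : ZMod m)) := by ring
            rw [this, Units.mul_inv]
            ring
        rw [e1, ZMod.natCast_eq_natCast_iff', Nat.mod_eq_of_lt hcm]
      have hcard : (S0.filter (fun s : ℕ => ((α + β * (s : ℤ) : ℤ) : ZMod m) = b)).card =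
          cnt B T (α + β * c) (β * m) N := by
        symm
        simp only [cnt]
        apply Finset.card_bij (fun s' _ => c + m * s')
        · intro s' hs'
          simp only [Finset.mem_filter, Finset.mem_range] at hs'
          simp only [Finset.mem_filter, Finset.mem_range, hS0]
          refine ⟨⟨(hN1 s').1 hs'.1, ?_⟩, ?_⟩
          · intro m' hm'
            have := hs'.2 m' hm'
            have e : (α + β * (c : ℤ) + β * (m : ℤ) * (s' : ℤ) : ℤ) =
              α + β * ((c + m * s' : ℕ) : ℤ) := by push_cast; ring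
            rw [e] at this
            exact this
          · rw [hcond]
            rw [Nat.add_mul_mod_self_left, Nat.mod_eq_of_lt hcm]
        · intro a _ b' _ hab
          have : m * a = m * b' := by omega
          exact Nat.eq_of_mul_eq_mul_left hm0 this
        · intro s hs
          simp only [Finset.mem_filter, Finset.mem_range, hS0] at hs
          obtain ⟨⟨hsn, hsT⟩, hsb⟩ := hs
          rw [hcond] at hsb
          have hs_eq : c + m * (s / m) = s := by
            rw [← hsb]
            exact Nat.mod_add_div s m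
          refine ⟨s / m, ?_, hs_eq⟩
          simp only [Finset.mem_filter, Finset.mem_range]
          refine ⟨(hN1 _).2 (by rw [hs_eq]; exact hsn), ?_⟩
          intro m' hm'
          have := hsT m' hm'
          have e : (α + β * (c : ℤ) + β * (m : ℤ) * ((s / m : ℕ) : ℤ) : ℤ) =
              α + β * (s : ℤ) := by
            conv_rhs => rw [← hs_eq]
            push_cast
            ring
          rw [e]
          exact this
      rw [hcard]
      have hβ' : ∀ m' ∈ T, IsCoprime (β * (m : ℤ)) (m' : ℤ) := by
        intro m' hm'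
        apply IsCoprime.mul_left (hβT m' hm')
        rw [Nat.isCoprime_iff_coprime]
        apply hcop (by simp) (by simp [hm'])
        rintro rfl
        exact hmT hm'
      have hi := ih' (α + β * c) (β * m) N hβ'
      have hd0 := dens_nonneg B T hpos'
      have hd1 := dens_le_one B T hpos'
      have e : (cnt B T (α + β * c) (β * m) N : ℝ) - dens B T * n / m =
        ((cnt B T (α + β * c) (β * m) N : ℝ) - dens B T * N) + dens B T * ((N : ℝ) - n / m) := by
        ring
      rw [e]
      calc _ ≤ |(cnt B T (α + β * c) (β * m) N : ℝ) - dens B T * N| +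
            |dens B T * ((N : ℝ) - n / m)| := abs_add_le _ _
        _ ≤ (3 ^ T.card - 1) + 1 := by
            gcongr
            rw [abs_mul, abs_of_nonneg hd0]
            calc dens B T * |(N : ℝ) - n / m| ≤ 1 * 1 := by gcongr
              _ = 1 := by norm_num
        _ = 3 ^ T.card := by ring
    -- conclusion
    have hfull := ih' α β n hβT
    have hs' : (cnt B (insert m T) α β n : ℝ) = cnt B T α β n - ∑ b ∈ B m,
        ((S0.filter (fun s : ℕ => ((α + β * (s : ℤ) : ℤ) : ZMod m) = b)).card : ℝ) := by
      have : (cnt B (insert m T) α β n : ℝ) + ∑ b ∈ B m,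
        ((S0.filter (fun s : ℕ => ((α + β * (s : ℤ) : ℤ) : ZMod m) = b)).card : ℝ)
        = cnt B T α β n := by exact_mod_cast hsplit
      linarith
    have hdens : dens B (insert m T) = (1 - ((B m).card : ℝ) / m) * dens B T := by
      simp only [dens]
      rw [Finset.prod_insert hmT]
    have e2 : (cnt B (insert m T) α β n : ℝ) - dens B (insert m T) * n =
        ((cnt B T α β n : ℝ) - dens B T * n) - ∑ b ∈ B m,
        (((S0.filter (fun s : ℕ => ((α + β * (s : ℤ) : ℤ) : ZMod m) = b)).card : ℝ)
          - dens B T * n / m) := by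
      rw [hs', hdens, Finset.sum_sub_distrib, Finset.sum_const, nsmul_eq_mul]
      ring
    rw [e2]
    have hsum : |∑ b ∈ B m,
        (((S0.filter (fun s : ℕ => ((α + β * (s : ℤ) : ℤ) : ZMod m) = b)).card : ℝ)
          - dens B T * n / m)| ≤ 2 * 3 ^ T.card := by
      calc _ ≤ ∑ b ∈ B m, |((S0.filter (fun s : ℕ => ((α + β * (s : ℤ) : ℤ) : ZMod m) = b)).card
              : ℝ) - dens B T * n / m| := Finset.abs_sum_le_sum_abs _ _
        _ ≤ ∑ b ∈ B m, (3 : ℝ) ^ T.card := Finset.sum_le_sum hclass
        _ = ((B m).card : ℝ) * 3 ^ T.card := by rw [Finset.sum_const, nsmul_eq_mul]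
        _ ≤ 2 * 3 ^ T.card := by
            have : ((B m).card : ℝ) ≤ 2 := by exact_mod_cast hB m (Finset.mem_insert_self _ _)
            gcongr
    calc _ ≤ |(cnt B T α β n : ℝ) - dens B T * n| + _ := abs_sub _ _
      _ ≤ (3 ^ T.card - 1) + 2 * 3 ^ T.card := add_le_add hfull hsum
      _ = 3 ^ (insert m T).card - 1 := by
          rw [Finset.card_insert_of_notMem hmT, pow_succ]
          ring

end Pool.Agent.DSRat
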