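import Mathlib
import Pool.Agent.DSRat.Sieve

set_option autoImplicit false

namespace Pool.Agent.DSRat

open Finset

/-- `9 ^ ω(q) ≤ 9 ^ 8 q` -/
lemma nine_pow_omega (q : ℕ) (hq : 0 < q) (T : Finset ℕ) (hT : T ⊆ q.primeFactors) :
    9 ^ T.card ≤ 9 ^ 8 * q := by
  have h1 : T.card ≤ (T.filter (fun p => p < 9)).card + (T.filter (fun p => ¬ p < 9)).card := by
    rw [Finset.card_filter_add_card_filter_not]
  have h2 : (T.filter (fun p => p < 9)).card ≤ 8 := by
    have : (T.filter (fun p => p < 9)) ⊆ (Finset.Icc 1 8) := by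
      intro p hp
      simp only [Finset.mem_filter] at hp
      have := (Nat.prime_of_mem_primeFactors (hT hp.1)).pos
      simp only [Finset.mem_Icc]
      omega
    simpa using Finset.card_le_card this
  have h3 : 9 ^ (T.filter (fun p => ¬ p < 9)).card ≤ q := by
    calc 9 ^ (T.filter (fun p => ¬ p < 9)).card = ∏ p ∈ T.filter (fun p => ¬ p < 9), 9 := by
          rw [Finset.prod_const]
      _ ≤ ∏ p ∈ T.filter (fun p => ¬ p < 9), p := by
          apply Finset.prod_le_prod'
          intro p hp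
          simp only [Finset.mem_filter] at hp
          omega
      _ ≤ ∏ p ∈ q.primeFactors, p := by
          apply Finset.prod_le_prod_of_subset_of_one_le'
          · exact (Finset.filter_subset _ _).trans hT
          · intro p hp _
            exact (Nat.prime_of_mem_primeFactors hp).one_le
      _ ≤ q := Nat.le_of_dvd hq (Nat.prod_primeFactors_dvd q)
  calc 9 ^ T.card ≤ 9 ^ ((T.filter (fun p => p < 9)).card + (T.filter (fun p => ¬ p < 9)).card) :=
        Nat.pow_le_pow_right (by norm_num) h1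
    _ = 9 ^ (T.filter (fun p => p < 9)).card * 9 ^ (T.filter (fun p => ¬ p < 9)).card := pow_add _ _ _
    _ ≤ 9 ^ 8 * q := Nat.mul_le_mul (Nat.pow_le_pow_right (by norm_num) h2) h3

lemma three_pow_omega (q : ℕ) (hq : 0 < q) (T : Finset ℕ) (hT : T ⊆ q.primeFactors) :
    (3 : ℝ) ^ T.card ≤ 3 ^ 8 * Real.sqrt q := by
  have h := nine_pow_omega q hq T hT
  have h' : (9 : ℝ) ^ T.card ≤ 9 ^ 8 * q := by exact_mod_cast h
  have h9 : (9 : ℝ) ^ T.card = (3 ^ T.card) ^ 2 := by
    rw [← pow_mul, mul_comm, pow_mul]; norm_num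
  apply le_of_sq_le_sq _ (by positivity)
  rw [mul_pow, Real.sq_sqrt (by positivity), ← h9]
  calc (9 : ℝ) ^ T.card ≤ 9 ^ 8 * q := h'
    _ = (3 ^ 8) ^ 2 * q := by norm_num

/-- telescoping lower bound -/
lemma prod_one_sub_inv_sq (T : Finset ℕ) (hT : ∀ n ∈ T, 3 ≤ n) :
    (1 / 2 : ℝ) ≤ ∏ n ∈ T, (1 - 1 / ((n : ℝ) - 1) ^ 2) := by
  have key : ∀ N : ℕ, ∏ n ∈ Finset.Icc 3 (N + 2), (1 - 1 / ((n : ℝ) - 1) ^ 2) =
      ((N : ℝ) + 2) / (2 * (N + 1)) := by
    intro N
    induction N with
    | zero => norm_num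
    | succ N ih =>
      have : Finset.Icc 3 (N + 1 + 2) = insert (N + 3) (Finset.Icc 3 (N + 2)) := by
        ext x
        simp only [Finset.mem_Icc, Finset.mem_insert]
        omega
      rw [this, Finset.prod_insert (by simp), ih]
      push_cast
      have h1 : ((N : ℝ) + 1) ≠ 0 := by positivity
      have h2 : ((N : ℝ) + 2) ≠ 0 := by positivity
      have e : (N : ℝ) + 3 - 1 = N + 2 := by ring
      rw [e]
      field_simp
      ring
  obtain ⟨M, hM⟩ : ∃ M : ℕ, T ⊆ Finset.Icc 3 (M + 2) := by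
    refine ⟨T.sup id, ?_⟩
    intro n hn
    have := Finset.le_sup (f := id) hn
    simp only [id] at this
    simp only [Finset.mem_Icc]
    exact ⟨hT n hn, by omega⟩
  have hfac : ∀ n ∈ Finset.Icc 3 (M + 2), 0 ≤ (1 - 1 / ((n : ℝ) - 1) ^ 2) ∧
      (1 - 1 / ((n : ℝ) - 1) ^ 2) ≤ 1 := by
    intro n hn
    simp only [Finset.mem_Icc] at hn
    have h3 : (3 : ℝ) ≤ n := by exact_mod_cast hn.1
    have h4 : (1 : ℝ) ≤ ((n : ℝ) - 1) ^ 2 := by nlinarith
    have h5 : 1 / ((n : ℝ) - 1) ^ 2 ≤ 1 := by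
      rw [div_le_one (by linarith)]
      exact h4
    have h6 : 0 ≤ 1 / ((n : ℝ) - 1) ^ 2 := by positivity
    constructor <;> linarith
  calc (1 / 2 : ℝ) ≤ ((M : ℝ) + 2) / (2 * (M + 1)) := by
        rw [div_le_div_iff₀ (by norm_num) (by positivity)]
        linarith
    _ = ∏ n ∈ Finset.Icc 3 (M + 2), (1 - 1 / ((n : ℝ) - 1) ^ 2) := (key M).symm
    _ ≤ ∏ n ∈ T, (1 - 1 / ((n : ℝ) - 1) ^ 2) := by
        rw [← Finset.prod_sdiff hM]
        calc _ ≤ 1 * ∏ n ∈ T, (1 - 1 / ((n : ℝ) - 1) ^ 2) := by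
              apply mul_le_mul_of_nonneg_right
              · apply Finset.prod_le_one
                · intro n hn
                  exact (hfac n (Finset.mem_sdiff.1 hn).1).1
                · intro n hn
                  exact (hfac n (Finset.mem_sdiff.1 hn).1).2
              · apply Finset.prod_nonneg
                intro n hn
                exact (hfac n (hM hn)).1
          _ = _ := one_mul _

/-- The bad residues: `0` and `-u/v`. -/
noncomputable def badRes (u v : ℤ) (m : ℕ) : Finset (ZMod m) := by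
  classical
  exact {0, -(u : ZMod m) * (v : ZMod m)⁻¹}

lemma badRes_card (u v : ℤ) (m : ℕ) : (badRes u v m).card ≤ 2 := by
  classical
  unfold badRes
  exact Finset.card_le_two

/-- odd prime factors -/
def oddPF (q : ℕ) : Finset ℕ := q.primeFactors.filter (fun p => p ≠ 2)

lemma dens_lower (u v : ℤ) (q : ℕ) (hq : 0 < q) :
    (1 / 2 : ℝ) * ((Nat.totient q : ℝ) / q) ^ 2 ≤ dens (badRes u v) (oddPF q) := by
  have hphi : (Nat.totient q : ℝ) / q = ∏ p ∈ q.primeFactors, (1 - 1 / (p : ℝ)) := by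
    have := Nat.totient_eq_mul_prod_factors q
    have h2 : ((Nat.totient q : ℚ) : ℝ) = ((q * ∏ p ∈ q.primeFactors, (1 - (p : ℚ)⁻¹) : ℚ) : ℝ) := by
      rw [this]
    push_cast at h2
    rw [h2, mul_div_assoc, mul_comm, div_mul_cancel₀]
    · simp
    · exact_mod_cast hq.ne'
  have hp3 : ∀ p ∈ oddPF q, 3 ≤ p := by
    intro p hp
    simp only [oddPF, Finset.mem_filter] at hp
    have := (Nat.prime_of_mem_primeFactors hp.1).two_le
    omega
  have h1 : ∏ p ∈ q.primeFactors, (1 - 1 / (p : ℝ)) ≤ ∏ p ∈ oddPF q, (1 - 1 / (p : ℝ)) := by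
    have hsub : oddPF q ⊆ q.primeFactors := Finset.filter_subset _ _
    rw [← Finset.prod_sdiff hsub]
    have hfac : ∀ p ∈ q.primeFactors, 0 ≤ (1 - 1 / (p : ℝ)) ∧ (1 - 1 / (p : ℝ)) ≤ 1 := by
      intro p hp
      have h2 : (2 : ℝ) ≤ p := by exact_mod_cast (Nat.prime_of_mem_primeFactors hp).two_le
      have h5 : 1 / (p : ℝ) ≤ 1 := by
        rw [div_le_one (by linarith)]
        linarith
      have h6 : 0 ≤ 1 / (p : ℝ) := by positivity
      constructor <;> linarith
    calc _ ≤ 1 * ∏ p ∈ oddPF q, (1 - 1 / (p : ℝ)) := by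
          apply mul_le_mul_of_nonneg_right
          · apply Finset.prod_le_one
            · intro n hn
              exact (hfac n (Finset.mem_sdiff.1 hn).1).1
            · intro n hn
              exact (hfac n (Finset.mem_sdiff.1 hn).1).2
          · apply Finset.prod_nonneg
            intro n hn
            exact (hfac n (hsub hn)).1
      _ = _ := one_mul _
  have h0 : 0 ≤ ∏ p ∈ q.primeFactors, (1 - 1 / (p : ℝ)) := by
    rw [← hphi]; positivity
  have h2 : (∏ p ∈ oddPF q, (1 - 1 / ((p : ℝ) - 1) ^ 2)) * (∏ p ∈ oddPF q, (1 - 1 / (p : ℝ))) ^ 2 =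
      ∏ p ∈ oddPF q, (1 - 2 / (p : ℝ)) := by
    rw [← Finset.prod_pow, ← Finset.prod_mul_distrib]
    apply Finset.prod_congr rfl
    intro p hp
    have h3 : (3 : ℝ) ≤ p := by exact_mod_cast hp3 p hp
    have h4 : (p : ℝ) - 1 ≠ 0 := by linarith
    have h5 : (p : ℝ) ≠ 0 := by linarith
    field_simp
    ring
  have h3 : ∏ p ∈ oddPF q, (1 - 2 / (p : ℝ)) ≤ dens (badRes u v) (oddPF q) := by
    unfold dens
    apply Finset.prod_le_prod
    · intro p hp
      have h3 : (3 : ℝ) ≤ p := by exact_mod_cast hp3 p hp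
      have : 2 / (p : ℝ) ≤ 1 := by
        rw [div_le_one (by linarith)]
        linarith
      linarith
    · intro p hp
      have h3 : (3 : ℝ) ≤ p := by exact_mod_cast hp3 p hp
      have : ((badRes u v p).card : ℝ) ≤ 2 := by exact_mod_cast badRes_card u v p
      have : ((badRes u v p).card : ℝ) / p ≤ 2 / p := by
        gcongr
      linarith
  rw [hphi]
  calc (1 / 2 : ℝ) * (∏ p ∈ q.primeFactors, (1 - 1 / (p : ℝ))) ^ 2
      ≤ (∏ p ∈ oddPF q, (1 - 1 / ((p : ℝ) - 1) ^ 2)) * (∏ p ∈ oddPF q, (1 - 1 / (p : ℝ))) ^ 2 := by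
        apply mul_le_mul
        · exact prod_one_sub_inv_sq _ hp3
        · gcongr
        · positivity
        · apply Finset.prod_nonneg
          intro n hn
          have h3 : (3 : ℝ) ≤ n := by exact_mod_cast hp3 n hn
          have h4 : (1 : ℝ) ≤ ((n : ℝ) - 1) ^ 2 := by nlinarith
          have h5 : 1 / ((n : ℝ) - 1) ^ 2 ≤ 1 := by
            rw [div_le_one (by linarith)]
            exact h4
          linarith
    _ = ∏ p ∈ oddPF q, (1 - 2 / (p : ℝ)) := h2
    _ ≤ _ := h3

/-- The good numerators. -/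
def good (u v c0 : ℤ) (q : ℕ) (p : ℤ) : Prop :=
  p % 4 = c0 ∧ ∀ m ∈ oddPF q, ((p : ℤ) : ZMod m) ∉ badRes u v m

/-- local count of good numerators in an open interval of reals -/
lemma local_count (u v c0 : ℤ) (hc0 : c0 % 4 = c0) (q : ℕ) (hq : 0 < q) (a b : ℝ) :
    ∃ P : Finset ℤ, (∀ p ∈ P, good u v c0 q p ∧ a < (p : ℝ) ∧ (p : ℝ) < b) ∧
      (1 / 2 : ℝ) * ((Nat.totient q : ℝ) / q) ^ 2 * ((b - a) / 4 - 1) - 3 ^ 8 * Real.sqrt q
        ≤ (P.card : ℝ) := by
  classical
  set smin : ℤ := ⌊(a - c0) / 4⌋ + 1 with hsmin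
  set n : ℕ := ⌈(b - a) / 4⌉₊ - 1 with hn
  set S : Finset ℕ := (range n).filter (fun s : ℕ => ∀ m ∈ oddPF q,
    (((4 * smin + c0) + 4 * (s : ℤ) : ℤ) : ZMod m) ∉ badRes u v m) with hS
  have hcnt : S.card = cnt (badRes u v) (oddPF q) (4 * smin + c0) 4 n := by
    simp only [cnt, hS]
  have hsieve := sieve (badRes u v) (oddPF q) (by
      intro m hm
      simp only [oddPF, Finset.mem_filter] at hm
      exact (Nat.prime_of_mem_primeFactors hm.1).pos) (by
      intro m _
      exact badRes_card u v m) (by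
      intro m hm m' hm' hne
      simp only [oddPF, Finset.coe_filter, Set.mem_ofPred_eq] at hm hm'
      exact (Nat.coprime_primes (Nat.prime_of_mem_primeFactors hm.1)
        (Nat.prime_of_mem_primeFactors hm'.1)).2 hne) (4 * smin + c0) 4 n (by
      intro m hm
      simp only [oddPF, Finset.mem_filter] at hm
      have hmp := Nat.prime_of_mem_primeFactors hm.1
      have : Nat.Coprime 4 m := by
        have h2 : Nat.Coprime 2 m := (Nat.coprime_primes Nat.prime_two hmp).2 (Ne.symm hm.2)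
        exact Nat.Coprime.pow_left 2 h2
      exact (Nat.isCoprime_iff_coprime (m := 4) (n := m)).2 this)
  refine ⟨S.image (fun s : ℕ => 4 * (smin + (s : ℤ)) + c0), ?_, ?_⟩
  · intro p hp
    simp only [Finset.mem_image, hS, Finset.mem_filter, Finset.mem_range] at hp
    obtain ⟨s, ⟨hsn, hsT⟩, rfl⟩ := hp
    refine ⟨⟨?_, ?_⟩, ?_, ?_⟩
    · omega
    · intro m hm
      have := hsT m hm
      have e : ((4 * smin + c0) + 4 * (s : ℤ) : ℤ) = 4 * (smin + (s : ℤ)) + c0 := by ring
      rw [e] at this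
      exact this
    · have h1 : (a - c0) / 4 < smin := by
        rw [hsmin]
        push_cast
        exact Int.lt_floor_add_one _
      push_cast
      have h2 : (0 : ℝ) ≤ s := by positivity
      linarith
    · have h1 : (smin : ℝ) ≤ (a - c0) / 4 + 1 := by
        rw [hsmin]
        push_cast
        have := Int.floor_le ((a - c0) / 4)
        linarith
      have h3 : (s : ℝ) + 1 ≤ n := by exact_mod_cast hsn
      have h4 : (n : ℝ) < (b - a) / 4 := by
        have hpos : 0 < ⌈(b - a) / 4⌉₊ := by omega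
        have h5 : (b - a) / 4 > 0 := by
          rw [Nat.ceil_pos] at hpos
          exact hpos
        have h6 := Nat.ceil_lt_add_one h5.le
        have h7 : (n : ℝ) = (⌈(b - a) / 4⌉₊ : ℝ) - 1 := by
          rw [hn, Nat.cast_sub (by omega)]
          simp
        linarith
      push_cast
      linarith
  · rw [Finset.card_image_of_injective _ (by
      intro s s' hss
      simp only at hss
      omega), hcnt]
    have hd := dens_lower u v q hq
    have h3 := three_pow_omega q hq (oddPF q) (Finset.filter_subset _ _)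
    have hd0 : 0 ≤ dens (badRes u v) (oddPF q) := le_trans (by positivity) hd
    have habs := (abs_le.1 hsieve).1
    have hn1 : (b - a) / 4 - 1 ≤ n := by
      have h6 := Nat.le_ceil ((b - a) / 4)
      have h7 : (⌈(b - a) / 4⌉₊ : ℝ) - 1 ≤ n := by
        rw [hn]
        have : ⌈(b - a) / 4⌉₊ ≤ (⌈(b - a) / 4⌉₊ - 1) + 1 := by omega
        have : (⌈(b - a) / 4⌉₊ : ℝ) ≤ ((⌈(b - a) / 4⌉₊ - 1 : ℕ) : ℝ) + 1 := by exact_mod_cast this
        linarith
      linarith
    have hmain : (1 / 2 : ℝ) * ((Nat.totient q : ℝ) / q) ^ 2 * ((b - a) / 4 - 1) ≤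
        dens (badRes u v) (oddPF q) * n := by
      rcases le_or_gt 0 ((b - a) / 4 - 1) with h | h
      · exact mul_le_mul hd hn1 h hd0
      · calc _ ≤ (0 : ℝ) := by
              apply mul_nonpos_of_nonneg_of_nonpos (by positivity) h.le
          _ ≤ _ := by positivity
    linarith

end Pool.Agent.DSRat
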