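import Mathlib
import Pool.Agent.DSRat.Arith

set_option autoImplicit false

namespace Pool.Agent.DSRat

open Finset MeasureTheory

/-- Standing assumptions on `u, v, c0`. -/
structure Data (u v c0 : ℤ) : Prop where
  hv : 0 < v
  cop : IsCoprime u v
  h4 : c0 % 4 = c0
  odd : c0 % 2 = 1
  two : u % 2 = 1 → v % 2 = 1 → (c0 * v + u) % 4 = 2

lemma exists_data (u v : ℤ) (hv : 0 < v) (h : IsCoprime u v) : ∃ c0, Data u v c0 := by
  by_cases hodd : u % 2 = 1 ∧ v % 2 = 1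
  · by_cases h4 : (v + u) % 4 = 2
    · exact ⟨1, hv, h, by norm_num, by norm_num, fun _ _ => by rw [one_mul]; exact h4⟩
    · refine ⟨3, hv, h, by norm_num, by norm_num, fun _ _ => ?_⟩
      omega
  · refine ⟨1, hv, h, by norm_num, by norm_num, fun h1 h2 => ?_⟩
    exact absurd ⟨h1, h2⟩ hodd

variable {u v c0 : ℤ}

lemma good_not_dvd_two (hd : Data u v c0) {q : ℕ} {p : ℤ} (hp : good u v c0 q p) : ¬ (2 : ℤ) ∣ p := by
  have h1 := hp.1
  have h2 := hd.odd
  omega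

lemma good_odd_prime (hd : Data u v c0) {q : ℕ} {p : ℤ} (hp : good u v c0 q p) {m : ℕ}
    (hm : m.Prime) (hm2 : m ≠ 2) (hmq : m ∣ q) (hq : 0 < q) :
    ¬ (m : ℤ) ∣ p ∧ ¬ (m : ℤ) ∣ (p * v + u) := by
  have : Fact m.Prime := ⟨hm⟩
  have hmem : m ∈ oddPF q := by
    simp only [oddPF, Finset.mem_filter, Nat.mem_primeFactors]
    exact ⟨⟨hm, hmq, hq.ne'⟩, hm2⟩
  have h := hp.2 m hmem
  simp only [badRes, Finset.mem_insert, Finset.mem_singleton, not_or] at h
  refine ⟨?_, ?_⟩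
  · intro hdvd
    exact h.1 ((ZMod.intCast_zmod_eq_zero_iff_dvd _ _).2 hdvd)
  · intro hdvd
    have e := (ZMod.intCast_zmod_eq_zero_iff_dvd _ _).2 hdvd
    push_cast at e
    by_cases hvm : (v : ZMod m) = 0
    · rw [hvm, mul_zero, zero_add] at e
      have h1 := (ZMod.intCast_zmod_eq_zero_iff_dvd _ _).1 hvm
      have h2 := (ZMod.intCast_zmod_eq_zero_iff_dvd _ _).1 e
      have h3 := hd.cop.isUnit_of_dvd' h2 h1
      have h4 := Int.isUnit_iff.1 h3
      have h5 := hm.two_le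
      omega
    · apply h.2
      have : (p : ZMod m) = -(u : ZMod m) * (v : ZMod m)⁻¹ := by
        rw [eq_mul_inv_iff_mul_eq₀ hvm]
        linear_combination e
      exact this

lemma good_gcd (hd : Data u v c0) {q : ℕ} (hq : 0 < q) {p : ℤ} (hp : good u v c0 q p) :
    Int.gcd p (q : ℤ) = 1 := by
  by_contra hne
  obtain ⟨m, hm, hmd⟩ := Nat.exists_prime_and_dvd hne
  have h1 : (m : ℤ) ∣ p := (Int.natCast_dvd_natCast.2 hmd).trans (Int.gcd_dvd_left _ _)
  have h2 : (m : ℤ) ∣ (q : ℤ) := (Int.natCast_dvd_natCast.2 hmd).trans (Int.gcd_dvd_right _ _)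
  by_cases hm2 : m = 2
  · subst hm2
    exact good_not_dvd_two hd hp (by exact_mod_cast h1)
  · exact (good_odd_prime hd hp hm hm2 (Int.natCast_dvd_natCast.1 h2) hq).1 h1

/-- coprimality from primes -/
lemma isCoprime_of_primes {a : ℤ} {q : ℕ}
    (h : ∀ m : ℕ, m.Prime → (m : ℤ) ∣ a → ¬ m ∣ q) : IsCoprime a (q : ℤ) := by
  rw [Int.isCoprime_iff_gcd_eq_one]
  by_contra hne
  obtain ⟨m, hm, hmd⟩ := Nat.exists_prime_and_dvd hne
  have h1 : (m : ℤ) ∣ a := (Int.natCast_dvd_natCast.2 hmd).trans (Int.gcd_dvd_left _ _)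
  have h2 : (m : ℤ) ∣ (q : ℤ) := (Int.natCast_dvd_natCast.2 hmd).trans (Int.gcd_dvd_right _ _)
  exact h m hm h1 (Int.natCast_dvd_natCast.1 h2)

lemma good_core (hd : Data u v c0) {q : ℕ} (hq : 0 < q) {p : ℤ} (hp : good u v c0 q p) :
    ((u % 2 = 1 ∧ v % 2 = 1 ∧ q % 2 = 0) → ∃ m : ℤ, p * v + u = 2 * m ∧ IsCoprime m (q : ℤ)) ∧
    (¬ (u % 2 = 1 ∧ v % 2 = 1 ∧ q % 2 = 0) → IsCoprime (p * v + u) (q : ℤ)) := by
  constructor
  · rintro ⟨hu, hv, hq2⟩
    have h4 := hd.two hu hv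
    obtain ⟨k, hk⟩ : ∃ k, p = 4 * k + c0 := ⟨p / 4, by have := hp.1; omega⟩
    obtain ⟨m, hm⟩ : ∃ m, p * v + u = 2 * m ∧ m % 2 = 1 := by
      have e : p * v + u = 4 * (k * v) + (c0 * v + u) := by rw [hk]; ring
      refine ⟨(p * v + u) / 2, ?_, ?_⟩ <;> omega
    refine ⟨m, hm.1, isCoprime_of_primes ?_⟩
    intro l hl hlm hlq
    by_cases hl2 : l = 2
    · subst hl2
      have := hm.2
      have h3 : (2 : ℤ) ∣ m := by exact_mod_cast hlm
      omega
    · apply (good_odd_prime hd hp hl hl2 hlq hq).2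
      rw [hm.1]
      exact Dvd.dvd.mul_left hlm 2
  · intro hn
    apply isCoprime_of_primes
    intro l hl hlm hlq
    by_cases hl2 : l = 2
    · subst hl2
      have h3 : (2 : ℤ) ∣ p * v + u := by exact_mod_cast hlm
      have h5 := good_not_dvd_two hd hp
      have hq2 : q % 2 = 0 := by omega
      have hpo : p % 2 = 1 := by omega
      rcases Int.emod_two_eq_zero_or_one v with hv | hv
      · have hu : u % 2 = 0 := by
          have h6 : (2 : ℤ) ∣ p * v := Dvd.dvd.mul_left (Int.dvd_of_emod_eq_zero hv) p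
          omega
        have h7 := hd.cop.isUnit_of_dvd' (Int.dvd_of_emod_eq_zero hu) (Int.dvd_of_emod_eq_zero hv)
        rw [Int.isUnit_iff] at h7
        omega
      · apply hn
        refine ⟨?_, hv, hq2⟩
        obtain ⟨a, ha⟩ : ∃ a, p = 2 * a + 1 := ⟨p / 2, by omega⟩
        obtain ⟨b, hb⟩ : ∃ b, v = 2 * b + 1 := ⟨v / 2, by omega⟩
        have e : p * v = 2 * (a * v) + v := by rw [ha]; ring
        omega
    · exact (good_odd_prime hd hp hl hl2 hlq hq).2 hlm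

lemma good_inj (hd : Data u v c0) {q r : ℕ} (hq : 0 < q) (hr : 0 < r) (hpar : q % 2 = r % 2)
    {p p' : ℤ} (hp : good u v c0 q p) (hp' : good u v c0 r p')
    (h : (p * v + u) * r = (p' * v + u) * q) : q = r := by
  have hc := good_core hd hq hp
  have hc' := good_core hd hr hp'
  by_cases hcase : (u % 2 = 1 ∧ v % 2 = 1 ∧ q % 2 = 0)
  · obtain ⟨m, hm, hmq⟩ := hc.1 hcase
    obtain ⟨m', hm', hmr⟩ := hc'.1 ⟨hcase.1, hcase.2.1, by omega⟩
    have h2 : m * r = m' * q := by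
      rw [hm, hm'] at h
      linarith
    have h3 : (q : ℤ) ∣ r := by
      apply hmq.symm.dvd_of_dvd_mul_left
      rw [h2]
      exact Dvd.intro_left _ rfl
    have h4 : (r : ℤ) ∣ q := by
      apply hmr.symm.dvd_of_dvd_mul_left
      rw [← h2]
      exact Dvd.intro_left _ rfl
    exact Nat.dvd_antisymm (Int.natCast_dvd_natCast.1 h3) (Int.natCast_dvd_natCast.1 h4)
  · have hmq := hc.2 hcase
    have hmr := hc'.2 (fun hx => hcase ⟨hx.1, hx.2.1, by omega⟩)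
    have h3 : (q : ℤ) ∣ r := by
      apply hmq.symm.dvd_of_dvd_mul_left
      rw [h]
      exact Dvd.intro_left _ rfl
    have h4 : (r : ℤ) ∣ q := by
      apply hmr.symm.dvd_of_dvd_mul_left
      rw [← h]
      exact Dvd.intro_left _ rfl
    exact Nat.dvd_antisymm (Int.natCast_dvd_natCast.1 h3) (Int.natCast_dvd_natCast.1 h4)

/-- the window of relevant numerators -/
noncomputable def window (γ : ℝ) (q : ℕ) : Finset ℤ := Finset.Ioc ⌊-1 - γ⌋ (⌊-1 - γ⌋ + q + 2)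

lemma mem_window {γ : ℝ} {q : ℕ} {p : ℤ} (h1 : -1 < (p : ℝ) + γ) (h2 : (p : ℝ) + γ < q + 1) :
    p ∈ window γ q := by
  simp only [window, Finset.mem_Ioc]
  constructor
  · rw [Int.floor_lt]
    linarith
  · have h3 := Int.lt_floor_add_one (-1 - γ)
    have h4 : (p : ℝ) < ((⌊-1 - γ⌋ + q + 3 : ℤ) : ℝ) := by
      push_cast
      linarith
    have h5 : p < ⌊-1 - γ⌋ + q + 3 := by exact_mod_cast h4
    omega

lemma window_card (γ : ℝ) (q : ℕ) : (window γ q).card = q + 2 := by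
  simp only [window, Int.card_Ioc]
  omega

lemma window_class_card (γ : ℝ) (q m : ℕ) (D : ℕ) (hm : 0 < m) (hD : 0 < D) (hq : m * D = q)
    (A : Finset ℤ) (hA : A ⊆ window γ q) (hcong : ∀ a ∈ A, ∀ b ∈ A, a ≡ b [ZMOD m]) :
    A.card ≤ 4 * D := by
  classical
  rcases A.eq_empty_or_nonempty with h | ⟨a0, ha0⟩
  · simp [h]
  have hsub : A ⊆ (Finset.Ioc ⌊-1 - γ⌋ (⌊-1 - γ⌋ + q + 2)).filter (fun x => x ≡ a0 [ZMOD m]) := by
    intro a ha
    simp only [Finset.mem_filter]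
    exact ⟨hA ha, hcong a ha a0 ha0⟩
  have hcard := Finset.card_le_card hsub
  have hm' : (0 : ℤ) < m := by exact_mod_cast hm
  have hform := Int.Ioc_filter_modEq_card ⌊-1 - γ⌋ (⌊-1 - γ⌋ + q + 2) hm' a0
  set w : ℤ := ⌊-1 - γ⌋ with hw
  have hbound : (⌊((w + q + 2 : ℤ) - a0 : ℚ) / (m : ℤ)⌋ - ⌊((w : ℚ) - a0) / (m : ℤ)⌋ : ℤ) ≤ 4 * D := by
    have h1 := Int.floor_le (((w + q + 2 : ℤ) - a0 : ℚ) / (m : ℤ))
    have h2 := Int.lt_floor_add_one (((w : ℚ) - a0) / (m : ℤ))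
    have hmq : (0 : ℚ) < (m : ℤ) := by exact_mod_cast hm
    have h3 : (((w + q + 2 : ℤ) - a0 : ℚ) / (m : ℤ)) - (((w : ℚ) - a0) / (m : ℤ)) ≤ D + 2 := by
      rw [← sub_div, div_le_iff₀ hmq]
      have hq' : (q : ℚ) = m * D := by rw [← hq]; push_cast; ring
      have hm1 : (1 : ℚ) ≤ m := by exact_mod_cast hm
      push_cast
      rw [hq']
      nlinarith
    have h4 : ((⌊((w + q + 2 : ℤ) - a0 : ℚ) / (m : ℤ)⌋ - ⌊((w : ℚ) - a0) / (m : ℤ)⌋ : ℤ) : ℚ) <
        ((D + 3 : ℤ) : ℚ) := by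
      push_cast at h1 h2 h3 ⊢
      linarith
    have h5 : (⌊((w + q + 2 : ℤ) - a0 : ℚ) / (m : ℤ)⌋ - ⌊((w : ℚ) - a0) / (m : ℤ)⌋ : ℤ) <
        (D + 3 : ℤ) := by exact_mod_cast h4
    omega
  have hfin : (((Finset.Ioc w (w + q + 2)).filter (fun x => x ≡ a0 [ZMOD m])).card : ℤ) ≤ 4 * D := by
    rw [hform]
    apply max_le hbound
    positivity
  have : (A.card : ℤ) ≤ 4 * D := le_trans (by exact_mod_cast hcard) hfin
  exact_mod_cast this

/-- integers with `0 < |n| < Y` -/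
lemma card_nonzero_lt (Y : ℝ) (hY : 0 < Y) (A : Finset ℤ) (hA : ∀ n ∈ A, n ≠ 0 ∧ |(n : ℝ)| < Y) :
    (A.card : ℝ) ≤ 2 * Y := by
  have hN : 0 < ⌈Y⌉ := Int.ceil_pos.2 hY
  have hsub : A ⊆ (Finset.Ioo (-⌈Y⌉) ⌈Y⌉).erase 0 := by
    intro n hn
    obtain ⟨h0, h1⟩ := hA n hn
    rw [abs_lt] at h1
    have h2 := Int.le_ceil Y
    have h3 : (n : ℝ) < (⌈Y⌉ : ℝ) := by linarith
    have h4 : ((-⌈Y⌉ : ℤ) : ℝ) < (n : ℝ) := by push_cast; linarith
    simp only [Finset.mem_erase, Finset.mem_Ioo]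
    exact ⟨h0, by exact_mod_cast h4, by exact_mod_cast h3⟩
  have hc := Finset.card_le_card hsub
  have h0mem : (0 : ℤ) ∈ Finset.Ioo (-⌈Y⌉) ⌈Y⌉ := by
    simp only [Finset.mem_Ioo]
    omega
  rw [Finset.card_erase_of_mem h0mem, Int.card_Ioo] at hc
  have h5 : (A.card : ℤ) ≤ 2 * (⌈Y⌉ - 1) := by omega
  have h6 : (A.card : ℝ) ≤ 2 * ((⌈Y⌉ : ℝ) - 1) := by exact_mod_cast h5
  have h7 := Int.ceil_lt_add_one Y
  linarith

/-- counting near pairs -/
lemma near_pairs (hd : Data u v c0) {q r : ℕ} (hq : 0 < q) (hr : 0 < r) (hpar : q % 2 = r % 2)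
    (hne : q ≠ r) (Δ : ℝ) (hΔ : 0 < Δ) (Q : Finset (ℤ × ℤ))
    (hQ : ∀ x ∈ Q, good u v c0 q x.1 ∧ good u v c0 r x.2 ∧ x.1 ∈ window ((u : ℝ) / v) q ∧
      |(r : ℝ) * (x.1 + (u : ℝ) / v) - q * (x.2 + (u : ℝ) / v)| < Δ) :
    (Q.card : ℝ) ≤ 8 * v * Δ := by
  classical
  set D : ℕ := Nat.gcd q r with hD
  have hDpos : 0 < D := Nat.gcd_pos_of_pos_left _ hq
  obtain ⟨q', hq'⟩ : D ∣ q := Nat.gcd_dvd_left q r
  obtain ⟨r', hr'⟩ : D ∣ r := Nat.gcd_dvd_right q r
  have hq'pos : 0 < q' := by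
    rcases Nat.eq_zero_or_pos q' with h | h
    · rw [h, mul_zero] at hq'; omega
    · exact h
  have hcop : Nat.Coprime q' r' := by
    have h1 : Nat.gcd (D * q') (D * r') = D * Nat.gcd q' r' := Nat.gcd_mul_left _ _ _
    rw [← hq', ← hr', ← hD] at h1
    have h2 : D * 1 = D * Nat.gcd q' r' := by rw [mul_one]; exact h1
    exact (Nat.eq_of_mul_eq_mul_left hDpos h2).symm
  have hvR : (0 : ℝ) < v := by exact_mod_cast hd.hv
  have hDR : (0 : ℝ) < D := by exact_mod_cast hDpos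
  set g : ℤ × ℤ → ℤ := fun x => (x.1 * v + u) * r' - (x.2 * v + u) * q' with hg
  have hgD : ∀ x : ℤ × ℤ, (D : ℤ) * g x = (x.1 * v + u) * r - (x.2 * v + u) * q := by
    intro x
    simp only [hg]
    have e1 : (q : ℤ) = D * q' := by exact_mod_cast hq'
    have e2 : (r : ℤ) = D * r' := by exact_mod_cast hr'
    rw [e1, e2]
    ring
  have hgR : ∀ x : ℤ × ℤ, (D : ℝ) * (g x : ℝ) =
      v * ((r : ℝ) * (x.1 + (u : ℝ) / v) - q * (x.2 + (u : ℝ) / v)) := by
    intro x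
    have h1 : ((D : ℤ) * g x : ℝ) = (((x.1 * v + u) * r - (x.2 * v + u) * q : ℤ) : ℝ) := by
      exact_mod_cast hgD x
    push_cast at h1
    rw [h1]
    field_simp
  set Y : ℝ := v * Δ / D with hY
  have hYpos : 0 < Y := by positivity
  have himg : ∀ n ∈ Q.image g, n ≠ 0 ∧ |(n : ℝ)| < Y := by
    intro n hn
    simp only [Finset.mem_image] at hn
    obtain ⟨x, hx, rfl⟩ := hn
    obtain ⟨h1, h2, _, h4⟩ := hQ x hx
    constructor
    · intro h0
      have h5 := hgD x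
      rw [h0, mul_zero] at h5
      exact hne (good_inj hd hq hr hpar h1 h2 (by linarith))
    · rw [hY, lt_div_iff₀ hDR]
      have h5 : |(g x : ℝ)| * D = |(D : ℝ) * (g x : ℝ)| := by
        rw [abs_mul, abs_of_pos hDR, mul_comm]
      rw [h5, hgR x, abs_mul, abs_of_pos hvR]
      exact mul_lt_mul_of_pos_left h4 hvR
  have hcardimg := card_nonzero_lt Y hYpos (Q.image g) himg
  have hfib : ∀ n ∈ Q.image g, (Q.filter (fun x => g x = n)).card ≤ 4 * D := by
    intro n _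
    have hinj : Set.InjOn (Prod.fst : ℤ × ℤ → ℤ) (Q.filter (fun x => g x = n)) := by
      intro x hx y hy hxy
      simp only [Finset.coe_filter, Set.mem_ofPred_eq] at hx hy
      have e := hx.2.trans hy.2.symm
      simp only [hg] at e
      have e2 : (x.2 - y.2) * (v * q') = 0 := by
        rw [hxy] at e
        linear_combination -e
      have hvq : v * (q' : ℤ) ≠ 0 := by
        have := hd.hv
        positivity
      rcases mul_eq_zero.1 e2 with h | h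
      · exact Prod.ext hxy (by linarith)
      · exact absurd h hvq
    rw [← Finset.card_image_of_injOn hinj]
    apply window_class_card ((u : ℝ) / v) q q' D hq'pos hDpos (by rw [hq', mul_comm])
    · intro a ha
      simp only [Finset.mem_image, Finset.mem_filter] at ha
      obtain ⟨x, ⟨hx, _⟩, rfl⟩ := ha
      exact (hQ x hx).2.2.1
    · intro a ha b hb
      simp only [Finset.mem_image, Finset.mem_filter] at ha hb
      obtain ⟨x, ⟨_, hgx⟩, rfl⟩ := ha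
      obtain ⟨y, ⟨_, hgy⟩, rfl⟩ := hb
      have e := hgx.trans hgy.symm
      simp only [hg] at e
      have e2 : v * ((y.1 - x.1) * r') = v * ((y.2 - x.2) * q') := by linear_combination -e
      have e3 := mul_left_cancel₀ hd.hv.ne' e2
      have e4 : (q' : ℤ) ∣ (y.1 - x.1) * r' := by rw [e3]; exact Dvd.intro_left _ rfl
      have hc2 : IsCoprime (q' : ℤ) (r' : ℤ) := Nat.isCoprime_iff_coprime.2 hcop
      exact (Int.modEq_iff_dvd).2 (hc2.dvd_of_dvd_mul_right e4)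
  have hmain : Q.card ≤ 4 * D * (Q.image g).card := Finset.card_le_mul_card_image _ _ hfib
  have hmainR : (Q.card : ℝ) ≤ 4 * D * ((Q.image g).card : ℝ) := by exact_mod_cast hmain
  calc (Q.card : ℝ) ≤ 4 * D * ((Q.image g).card : ℝ) := hmainR
    _ ≤ 4 * D * (2 * Y) := by gcongr
    _ = 8 * v * Δ := by
        rw [hY]
        field_simp
        ring

end Pool.Agent.DSRat
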