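import Mathlib
import Pool.Agent.DSRat.Overlap

set_option autoImplicit false

namespace Pool.Agent.DSRat

open Finset MeasureTheory Filter Topology

/-- abstract second moment inequality -/
lemma second_moment_bound {Ω ι : Type*} [MeasurableSpace Ω] (ν : Measure Ω) [IsFiniteMeasure ν]
    (B : Finset ι) (F : ι → Set Ω) (hF : ∀ i ∈ B, MeasurableSet (F i)) (U W : Set Ω)
    (hU : MeasurableSet U) (hW : MeasurableSet W) (hdis : ∀ i ∈ B, Disjoint W (F i))
    (t : ℝ) (ht : 0 < t) :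
    ∑ i ∈ B, ν.real (U ∩ F i) ≤
      (1 / (2 * t)) * ∑ i ∈ B, ∑ j ∈ B, ν.real (F i ∩ F j) + (t / 2) * ν.real (U \ W) := by
  classical
  have hi1 : ∀ S : Set Ω, MeasurableSet S → Integrable (S.indicator (1 : Ω → ℝ)) ν := by
    intro S hS
    exact (integrable_const (1 : ℝ)).indicator hS
  have e1 : ∑ i ∈ B, ν.real (U ∩ F i) =
      ∫ x, ∑ i ∈ B, (U ∩ F i).indicator (1 : Ω → ℝ) x ∂ν := by
    rw [integral_finsetSum]
    · apply Finset.sum_congr rfl
      intro i hi
      rw [integral_indicator_one (hU.inter (hF i hi))]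
    · intro i hi
      exact hi1 _ (hU.inter (hF i hi))
  have e2 : ∑ i ∈ B, ∑ j ∈ B, ν.real (F i ∩ F j) =
      ∫ x, ∑ i ∈ B, ∑ j ∈ B, (F i ∩ F j).indicator (1 : Ω → ℝ) x ∂ν := by
    rw [integral_finsetSum]
    · apply Finset.sum_congr rfl
      intro i hi
      rw [integral_finsetSum]
      · apply Finset.sum_congr rfl
        intro j hj
        rw [integral_indicator_one ((hF i hi).inter (hF j hj))]
      · intro j hj
        exact hi1 _ ((hF i hi).inter (hF j hj))
    · intro i hi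
      apply integrable_finsetSum
      intro j hj
      exact hi1 _ ((hF i hi).inter (hF j hj))
  have e3 : ν.real (U \ W) = ∫ x, (U \ W).indicator (1 : Ω → ℝ) x ∂ν := by
    rw [integral_indicator_one (hU.diff hW)]
  have hint2 : Integrable (fun x => ∑ i ∈ B, ∑ j ∈ B, (F i ∩ F j).indicator (1 : Ω → ℝ) x) ν := by
    apply integrable_finsetSum
    intro i hi
    apply integrable_finsetSum
    intro j hj
    exact hi1 _ ((hF i hi).inter (hF j hj))
  have hint3 : Integrable (fun x => (U \ W).indicator (1 : Ω → ℝ) x) ν := hi1 _ (hU.diff hW)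
  rw [e1, e2, e3, ← integral_const_mul, ← integral_const_mul, ← integral_add]
  · apply integral_mono
    · apply integrable_finsetSum
      intro i hi
      exact hi1 _ (hU.inter (hF i hi))
    · exact (hint2.const_mul _).add (hint3.const_mul _)
    · intro x
      simp only
      set N : ℝ := ∑ i ∈ B, (F i).indicator (1 : Ω → ℝ) x with hN
      have hsq : ∑ i ∈ B, ∑ j ∈ B, (F i ∩ F j).indicator (1 : Ω → ℝ) x = N * N := by
        rw [hN, Finset.sum_mul_sum]
        apply Finset.sum_congr rfl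
        intro i _
        apply Finset.sum_congr rfl
        intro j _
        rw [Set.inter_indicator_one]
        rfl
      rw [hsq]
      have hN0 : 0 ≤ N := by
        apply Finset.sum_nonneg
        intro i _
        exact Set.indicator_nonneg (fun _ _ => zero_le_one) _
      by_cases hxU : x ∈ U
      · have h1 : ∑ i ∈ B, (U ∩ F i).indicator (1 : Ω → ℝ) x = N := by
          apply Finset.sum_congr rfl
          intro i _
          by_cases hx : x ∈ F i
          · rw [Set.indicator_of_mem (show x ∈ U ∩ F i from ⟨hxU, hx⟩), Set.indicator_of_mem hx]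
          · rw [Set.indicator_of_notMem (fun h : x ∈ U ∩ F i => hx h.2),
              Set.indicator_of_notMem hx]
        rw [h1]
        by_cases hxW : x ∈ W
        · have h2 : N = 0 := by
            apply Finset.sum_eq_zero
            intro i hi
            exact Set.indicator_of_notMem (fun h => Set.disjoint_left.1 (hdis i hi) hxW h) _
          rw [h2]
          have : 0 ≤ (U \ W).indicator (1 : Ω → ℝ) x :=
            Set.indicator_nonneg (fun _ _ => zero_le_one) _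
          have : 0 ≤ t / 2 * (U \ W).indicator (1 : Ω → ℝ) x := by positivity
          linarith
        · rw [Set.indicator_of_mem (show x ∈ U \ W from ⟨hxU, hxW⟩)]
          simp only [Pi.one_apply]
          have h3 : 0 ≤ (N - t) ^ 2 / (2 * t) := by positivity
          have h4 : (N - t) ^ 2 / (2 * t) = 1 / (2 * t) * (N * N) + t / 2 * 1 - N := by
            field_simp
            ring
          linarith
      · have h1 : ∑ i ∈ B, (U ∩ F i).indicator (1 : Ω → ℝ) x = 0 := by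
          apply Finset.sum_eq_zero
          intro i hi
          exact Set.indicator_of_notMem (fun h : x ∈ U ∩ F i => hxU h.1) _
        rw [h1]
        have : 0 ≤ (U \ W).indicator (1 : Ω → ℝ) x :=
            Set.indicator_nonneg (fun _ _ => zero_le_one) _
        positivity
  · exact hint2.const_mul _
  · exact hint3.const_mul _

variable {u v c0 : ℤ}

/-- the set of `x` approximated by a good fraction with denominator `q` -/
def Fset (u v c0 : ℤ) (δ : ℝ) (q : ℕ) : Set ℝ :=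
  {x : ℝ | ∃ p : ℤ, good u v c0 q p ∧ |(q : ℝ) * x - p - (u : ℝ) / v| < δ}

/-- a single interval -/
def Iset (γ δ : ℝ) (q : ℕ) (p : ℤ) : Set ℝ := {x : ℝ | |(q : ℝ) * x - p - γ| < δ}

lemma Iset_eq_Ioo (γ δ : ℝ) (q : ℕ) (hq : 0 < q) (p : ℤ) :
    Iset γ δ q p = Set.Ioo ((p + γ - δ) / q) ((p + γ + δ) / q) := by
  have hqR : (0 : ℝ) < q := by exact_mod_cast hq
  ext x
  simp only [Iset, Set.mem_ofPred_eq, Set.mem_Ioo, abs_lt]
  rw [div_lt_iff₀ hqR, lt_div_iff₀ hqR]
  constructor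
  · rintro ⟨h1, h2⟩
    constructor <;> linarith
  · rintro ⟨h1, h2⟩
    constructor <;> linarith

lemma Iset_volume (γ δ : ℝ) (q : ℕ) (hq : 0 < q) (p : ℤ) :
    volume (Iset γ δ q p) = ENNReal.ofReal (2 * δ / q) := by
  rw [Iset_eq_Ioo γ δ q hq, Real.volume_Ioo]
  congr 1
  ring

lemma Iset_open (γ δ : ℝ) (q : ℕ) (p : ℤ) : IsOpen (Iset γ δ q p) := by
  have : Iset γ δ q p = (fun x : ℝ => |(q : ℝ) * x - p - γ|) ⁻¹' (Set.Iio δ) := by
    ext x; simp [Iset]
  rw [this]
  apply IsOpen.preimage _ isOpen_Iio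
  fun_prop

lemma Fset_eq (u v c0 : ℤ) (δ : ℝ) (q : ℕ) :
    Fset u v c0 δ q = ⋃ p ∈ {p : ℤ | good u v c0 q p}, Iset ((u : ℝ) / v) δ q p := by
  ext x
  simp [Fset, Iset]

lemma Fset_open (u v c0 : ℤ) (δ : ℝ) (q : ℕ) : IsOpen (Fset u v c0 δ q) := by
  rw [Fset_eq]
  apply isOpen_biUnion
  intro p _
  exact Iset_open _ _ _ _

lemma mem_window_of_mem {γ δ : ℝ} {q : ℕ} {p : ℤ} (hδ : δ ≤ 1 / 2) {x : ℝ}
    (hx : x ∈ Set.Icc (0 : ℝ) 1) (h : |(q : ℝ) * x - p - γ| < δ) : p ∈ window γ q := by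
  rw [abs_lt] at h
  have hq : (0 : ℝ) ≤ q := by positivity
  have h1 : (q : ℝ) * x ≤ q := by
    calc (q : ℝ) * x ≤ q * 1 := mul_le_mul_of_nonneg_left hx.2 hq
      _ = q := mul_one _
  have h2 : 0 ≤ (q : ℝ) * x := mul_nonneg hq hx.1
  apply mem_window <;> linarith [h.1, h.2]

lemma diag_bound (u v c0 : ℤ) {δ : ℝ} (h0 : 0 < δ) (hδ : δ ≤ 1 / 2) {q : ℕ} (hq : 0 < q) :
    volume (Set.Icc (0 : ℝ) 1 ∩ Fset u v c0 δ q) ≤ ENNReal.ofReal (6 * δ) := by
  have hsub : Set.Icc (0 : ℝ) 1 ∩ Fset u v c0 δ q ⊆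
      ⋃ p ∈ window ((u : ℝ) / v) q, Iset ((u : ℝ) / v) δ q p := by
    rintro x ⟨hx, p, _, hp⟩
    simp only [Set.mem_iUnion, exists_prop]
    exact ⟨p, mem_window_of_mem hδ hx hp, hp⟩
  calc volume (Set.Icc (0 : ℝ) 1 ∩ Fset u v c0 δ q)
      ≤ volume (⋃ p ∈ window ((u : ℝ) / v) q, Iset ((u : ℝ) / v) δ q p) := measure_mono hsub
    _ ≤ ∑ p ∈ window ((u : ℝ) / v) q, volume (Iset ((u : ℝ) / v) δ q p) :=
        measure_biUnion_finset_le _ _
    _ = ∑ p ∈ window ((u : ℝ) / v) q, ENNReal.ofReal (2 * δ / q) := by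
        apply Finset.sum_congr rfl
        intro p _
        exact Iset_volume _ _ _ hq _
    _ = ENNReal.ofReal ((q + 2) * (2 * δ / q)) := by
        rw [Finset.sum_const, window_card, nsmul_eq_mul, ENNReal.ofReal_mul (by positivity)]
        congr 1
        rw [ENNReal.ofReal_add (by positivity) (by norm_num)]
        simp
    _ ≤ ENNReal.ofReal (6 * δ) := by
        apply ENNReal.ofReal_le_ofReal
        have hqR : (1 : ℝ) ≤ q := by exact_mod_cast hq
        rw [← mul_div_assoc, div_le_iff₀ (by linarith)]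
        nlinarith

lemma overlap_bound (hd : Data u v c0) {δ δ' : ℝ} (h0 : 0 < δ) (hδ : δ ≤ 1 / 2)
    (h0' : 0 < δ') (hδ' : δ' ≤ 1 / 2) {q r : ℕ} (hq : 0 < q) (hr : 0 < r)
    (hpar : q % 2 = r % 2) (hne : q ≠ r) :
    volume (Set.Icc (0 : ℝ) 1 ∩ (Fset u v c0 δ q ∩ Fset u v c0 δ' r)) ≤
      ENNReal.ofReal (32 * v * δ * δ') := by
  classical
  set γ : ℝ := (u : ℝ) / v with hγ
  set Δ : ℝ := r * δ + q * δ' with hΔ
  have hqR : (0 : ℝ) < q := by exact_mod_cast hq
  have hrR : (0 : ℝ) < r := by exact_mod_cast hr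
  have hvR : (0 : ℝ) < v := by exact_mod_cast hd.hv
  have hΔ0 : 0 < Δ := by positivity
  set Q : Finset (ℤ × ℤ) := ((window γ q) ×ˢ (window γ r)).filter (fun x =>
    good u v c0 q x.1 ∧ good u v c0 r x.2 ∧ |(r : ℝ) * (x.1 + γ) - q * (x.2 + γ)| < Δ) with hQ
  have hcard : (Q.card : ℝ) ≤ 8 * v * Δ := by
    apply near_pairs hd hq hr hpar hne Δ hΔ0 Q
    intro x hx
    simp only [hQ, Finset.mem_filter, Finset.mem_product] at hx
    exact ⟨hx.2.1, hx.2.2.1, hx.1.1, hx.2.2.2⟩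
  have hsub : Set.Icc (0 : ℝ) 1 ∩ (Fset u v c0 δ q ∩ Fset u v c0 δ' r) ⊆
      ⋃ x ∈ Q, (Iset γ δ q x.1 ∩ Iset γ δ' r x.2) := by
    rintro x ⟨hx, ⟨p, hp1, hp2⟩, ⟨p', hp'1, hp'2⟩⟩
    simp only [Set.mem_iUnion, exists_prop]
    refine ⟨(p, p'), ?_, hp2, hp'2⟩
    simp only [hQ, Finset.mem_filter, Finset.mem_product]
    refine ⟨⟨mem_window_of_mem hδ hx hp2, mem_window_of_mem hδ' hx hp'2⟩, hp1, hp'1, ?_⟩
    have e : (r : ℝ) * (p + γ) - q * (p' + γ) =
        q * ((r : ℝ) * x - p' - γ) - r * ((q : ℝ) * x - p - γ) := by ring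
    rw [e, hΔ]
    calc |(q : ℝ) * ((r : ℝ) * x - p' - γ) - r * ((q : ℝ) * x - p - γ)|
        ≤ |(q : ℝ) * ((r : ℝ) * x - p' - γ)| + |r * ((q : ℝ) * x - p - γ)| := abs_sub _ _
      _ = q * |((r : ℝ) * x - p' - γ)| + r * |((q : ℝ) * x - p - γ)| := by
          rw [abs_mul, abs_mul, abs_of_pos hqR, abs_of_pos hrR]
      _ < q * δ' + r * δ := by
          have h1 := mul_lt_mul_of_pos_left hp'2 hqR
          have h2 := mul_lt_mul_of_pos_left hp2 hrR
          linarith
      _ = r * δ + q * δ' := by ring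
  have hmin : ∀ x ∈ Q, volume (Iset γ δ q x.1 ∩ Iset γ δ' r x.2) ≤
      ENNReal.ofReal (min (2 * δ / q) (2 * δ' / r)) := by
    intro x _
    rcases le_total (2 * δ / q) (2 * δ' / r) with h | h
    · rw [min_eq_left h, ← Iset_volume γ δ q hq x.1]
      exact measure_mono Set.inter_subset_left
    · rw [min_eq_right h, ← Iset_volume γ δ' r hr x.2]
      exact measure_mono Set.inter_subset_right
  have hmin0 : 0 ≤ min (2 * δ / q) (2 * δ' / r) := by positivity
  calc volume (Set.Icc (0 : ℝ) 1 ∩ (Fset u v c0 δ q ∩ Fset u v c0 δ' r))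
      ≤ volume (⋃ x ∈ Q, (Iset γ δ q x.1 ∩ Iset γ δ' r x.2)) := measure_mono hsub
    _ ≤ ∑ x ∈ Q, volume (Iset γ δ q x.1 ∩ Iset γ δ' r x.2) := measure_biUnion_finset_le _ _
    _ ≤ ∑ x ∈ Q, ENNReal.ofReal (min (2 * δ / q) (2 * δ' / r)) := Finset.sum_le_sum hmin
    _ = ENNReal.ofReal ((Q.card : ℝ) * min (2 * δ / q) (2 * δ' / r)) := by
        rw [Finset.sum_const, nsmul_eq_mul, ENNReal.ofReal_mul (by positivity),
          ENNReal.ofReal_natCast]
    _ ≤ ENNReal.ofReal (32 * v * δ * δ') := by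
        apply ENNReal.ofReal_le_ofReal
        calc (Q.card : ℝ) * min (2 * δ / q) (2 * δ' / r)
            ≤ 8 * v * Δ * min (2 * δ / q) (2 * δ' / r) := by gcongr
          _ ≤ 32 * v * δ * δ' := by
              have key : Δ * min (2 * δ / q) (2 * δ' / r) ≤ 4 * (δ * δ') := by
                rw [hΔ, add_mul]
                have h1 : (r : ℝ) * δ * min (2 * δ / q) (2 * δ' / r) ≤ r * δ * (2 * δ' / r) := by
                  gcongr
                  exact min_le_right _ _
                have h2 : (q : ℝ) * δ' * min (2 * δ / q) (2 * δ' / r) ≤ q * δ' * (2 * δ / q) := by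
                  gcongr
                  exact min_le_left _ _
                have h3 : (r : ℝ) * δ * (2 * δ' / r) = 2 * (δ * δ') := by
                  field_simp
                have h4 : (q : ℝ) * δ' * (2 * δ / q) = 2 * (δ * δ') := by
                  field_simp
                linarith
              calc 8 * v * Δ * min (2 * δ / q) (2 * δ' / r)
                  = 8 * v * (Δ * min (2 * δ / q) (2 * δ' / r)) := by ring
                _ ≤ 8 * v * (4 * (δ * δ')) := by gcongr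
                _ = 32 * v * δ * δ' := by ring

/-- local lower bound: exact form -/
lemma local_lower_aux (hd : Data u v c0) {δ : ℝ} (h0 : 0 < δ) (hδ : δ ≤ 1 / 2) {q : ℕ}
    (hq : 0 < q) (s t : ℝ) :
    ENNReal.ofReal (((1 / 2 : ℝ) * ((Nat.totient q : ℝ) / q) ^ 2 * ((q * (t - s) - 1) / 4 - 1)
      - 3 ^ 8 * Real.sqrt q) * (2 * δ / q)) ≤ volume (Set.Ico s t ∩ Fset u v c0 δ q) := by
  classical
  set γ : ℝ := (u : ℝ) / v with hγ
  have hqR : (0 : ℝ) < q := by exact_mod_cast hq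
  obtain ⟨P, hP, hcard⟩ := local_count u v c0 hd.h4 q hq (s * q - γ + 1 / 2) (t * q - γ - 1 / 2)
  have e : (t * q - γ - 1 / 2) - (s * q - γ + 1 / 2) = q * (t - s) - 1 := by ring
  rw [e] at hcard
  have hsub : (⋃ p ∈ P, Iset γ δ q p) ⊆ Set.Ico s t ∩ Fset u v c0 δ q := by
    intro x hx
    simp only [Set.mem_iUnion, exists_prop] at hx
    obtain ⟨p, hp, hx⟩ := hx
    obtain ⟨hg, ha, hb⟩ := hP p hp
    refine ⟨?_, p, hg, hx⟩
    simp only [Iset, Set.mem_ofPred_eq, abs_lt] at hx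
    constructor
    · have : s * q ≤ x * q := by linarith [hx.1, hx.2]
      exact le_of_mul_le_mul_right this hqR
    · have : x * q < t * q := by linarith [hx.1, hx.2]
      exact lt_of_mul_lt_mul_right this hqR.le
  have hdisj : (P : Set ℤ).PairwiseDisjoint (fun p => Iset γ δ q p) := by
    intro p _ p' _ hne
    rw [Function.onFun, Set.disjoint_left]
    intro x hx hx'
    simp only [Iset, Set.mem_ofPred_eq, abs_lt] at hx hx'
    have h1 : |((p - p' : ℤ) : ℝ)| < 1 := by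
      rw [abs_lt]
      push_cast
      constructor <;> linarith [hx.1, hx.2, hx'.1, hx'.2]
    have h2 : |p - p'| < 1 := by exact_mod_cast h1
    have h3 : p - p' = 0 := Int.abs_lt_one_iff.1 h2
    exact hne (by linarith)
  have hvol : volume (⋃ p ∈ P, Iset γ δ q p) = ENNReal.ofReal ((P.card : ℝ) * (2 * δ / q)) := by
    rw [measure_biUnion_finset hdisj (fun p _ => (Iset_open _ _ _ _).measurableSet)]
    have : ∀ p ∈ P, volume (Iset γ δ q p) = ENNReal.ofReal (2 * δ / q) :=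
      fun p _ => Iset_volume _ _ _ hq _
    rw [Finset.sum_congr rfl this, Finset.sum_const, nsmul_eq_mul,
      ENNReal.ofReal_mul (by positivity), ENNReal.ofReal_natCast]
  calc _ ≤ ENNReal.ofReal ((P.card : ℝ) * (2 * δ / q)) := by
        apply ENNReal.ofReal_le_ofReal
        gcongr
    _ = volume (⋃ p ∈ P, Iset γ δ q p) := hvol.symm
    _ ≤ _ := measure_mono hsub

/-- local lower bound for large `q` -/
lemma local_lower (hd : Data u v c0) {η : ℝ} (hη : 0 < η) {m : ℕ} (hm : 0 < m) :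
    ∃ q0 : ℕ, ∀ q : ℕ, q0 ≤ q → 0 < q → η ≤ (Nat.totient q : ℝ) / q →
      ∀ δ : ℝ, 0 < δ → δ ≤ 1 / 2 → ∀ s : ℝ,
        ENNReal.ofReal (η ^ 2 / 16 * (1 / m) * δ) ≤
          volume (Set.Ico s (s + 1 / m) ∩ Fset u v c0 δ q) := by
  have hmR : (0 : ℝ) < m := by exact_mod_cast hm
  set K : ℝ := 20 * m + (3 ^ 8 * 16 * m / η ^ 2 * 2) ^ 2 with hK
  refine ⟨⌈K⌉₊, ?_⟩
  intro q hq0 hq hphi δ h0 hδ s
  have hqK : K ≤ q := le_trans (Nat.le_ceil K) (by exact_mod_cast hq0)
  refine le_trans (ENNReal.ofReal_le_ofReal ?_) (local_lower_aux hd h0 hδ hq s (s + 1 / m))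
  have hqR : (0 : ℝ) < q := by exact_mod_cast hq
  have hsq : 3 ^ 8 * 16 * m / η ^ 2 * 2 ≤ Real.sqrt q := by
    apply Real.le_sqrt_of_sq_le
    have : (0 : ℝ) ≤ 20 * m := by positivity
    linarith
  have hsq0 : 0 ≤ Real.sqrt q := Real.sqrt_nonneg _
  have hqq : Real.sqrt q * Real.sqrt q = q := Real.mul_self_sqrt hqR.le
  have h1 : 3 ^ 8 * Real.sqrt q ≤ η ^ 2 * q / (32 * m) := by
    rw [le_div_iff₀ (by positivity)]
    have h2 : 3 ^ 8 * 16 * m * 2 ≤ η ^ 2 * Real.sqrt q := by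
      have : 3 ^ 8 * 16 * m / η ^ 2 * 2 = 3 ^ 8 * 16 * m * 2 / η ^ 2 := by ring
      rw [this, div_le_iff₀ (by positivity)] at hsq
      linarith
    calc 3 ^ 8 * Real.sqrt q * (32 * m) = (3 ^ 8 * 16 * m * 2) * Real.sqrt q := by ring
      _ ≤ (η ^ 2 * Real.sqrt q) * Real.sqrt q := by gcongr
      _ = η ^ 2 * q := by rw [mul_assoc, hqq]
  have h20 : 20 * (m : ℝ) ≤ q := by
    have : 0 ≤ (3 ^ 8 * 16 * m / η ^ 2 * 2) ^ 2 := by positivity
    linarith
  have hbr : (q : ℝ) / (16 * m) + q / (8 * m) ≤ ((q * (s + 1 / m - s) - 1) / 4 - 1) + 0 := by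
    have e : (q : ℝ) * (s + 1 / m - s) = q / m := by ring
    rw [e]
    have h3 : (20 : ℝ) ≤ q / m := by rw [le_div_iff₀ hmR]; exact h20
    have h4 : (q : ℝ) / (16 * m) = (q / m) / 16 := by field_simp
    have h5 : (q : ℝ) / (8 * m) = (q / m) / 8 := by field_simp
    rw [h4, h5]
    linarith
  have hmain : η ^ 2 * q / (16 * m) ≤ (1 / 2 : ℝ) * ((Nat.totient q : ℝ) / q) ^ 2 *
      ((q * (s + 1 / m - s) - 1) / 4 - 1) - 3 ^ 8 * Real.sqrt q := by
    have hb0 : 0 ≤ (q : ℝ) / (16 * m) + q / (8 * m) := by positivity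
    have h6 : (1 / 2 : ℝ) * η ^ 2 * ((q : ℝ) / (16 * m) + q / (8 * m)) ≤
        (1 / 2 : ℝ) * ((Nat.totient q : ℝ) / q) ^ 2 * ((q * (s + 1 / m - s) - 1) / 4 - 1) := by
      apply mul_le_mul
      · gcongr
      · linarith
      · exact hb0
      · positivity
    have h7 : (1 / 2 : ℝ) * η ^ 2 * ((q : ℝ) / (16 * m) + q / (8 * m)) =
        η ^ 2 * q / (32 * m) + η ^ 2 * q / (16 * m) := by
      field_simp
      ring
    linarith
  calc η ^ 2 / 16 * (1 / m) * δ ≤ (η ^ 2 * q / (16 * m)) * (2 * δ / q) := by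
        have : (η ^ 2 * q / (16 * m)) * (2 * δ / q) = 2 * (η ^ 2 / 16 * (1 / m) * δ) := by
          field_simp
        rw [this]
        have : 0 ≤ η ^ 2 / 16 * (1 / m) * δ := by positivity
        linarith
    _ ≤ _ := by gcongr

end Pool.Agent.DSRat
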