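import Mathlib
import Pool.Agent.DSRat.Meas

set_option autoImplicit false

namespace Pool.Agent.DSRat

open Finset MeasureTheory Filter Topology

variable {u v c0 : ℤ}

/-- The closed set of points of `[0,1]` missed by all `F_q`, `q ≥ k`. -/
def missed (u v c0 : ℤ) (f : ℕ → ℝ) (k : ℕ) : Set ℝ :=
  Set.Icc (0 : ℝ) 1 ∩ ⋂ q ∈ {q : ℕ | k ≤ q}, (Fset u v c0 (f q) q)ᶜ

lemma missed_compact (f : ℕ → ℝ) (k : ℕ) : IsCompact (missed u v c0 f k) := by
  apply IsCompact.inter_right isCompact_Icc
  apply isClosed_biInter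
  intro q _
  exact (Fset_open _ _ _ _ _).isClosed_compl

/-- from a non summable nonnegative function extract a finite set beyond `k` with sum at least 1 -/
lemma exists_block (f : ℕ → ℝ) (h0 : ∀ q, 0 ≤ f q) (hns : ¬ Summable f) (k : ℕ) :
    ∃ B : Finset ℕ, (∀ q ∈ B, k ≤ q ∧ 0 < f q) ∧ 1 ≤ ∑ q ∈ B, f q := by
  classical
  by_contra hcon
  push Not at hcon
  apply hns
  have hs : Summable (fun n => f (n + k)) := by
    apply summable_of_sum_le (c := 1) (fun n => h0 _)
    intro u
    set B : Finset ℕ := (u.image (fun n => n + k)).filter (fun q => 0 < f q) with hB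
    have h1 : ∑ x ∈ u, f (x + k) = ∑ q ∈ u.image (fun n => n + k), f q := by
      rw [Finset.sum_image]
      intro a _ b _ hab
      exact Nat.add_right_cancel hab
    have h2 : ∑ q ∈ u.image (fun n => n + k), f q = ∑ q ∈ B, f q := by
      rw [hB, Finset.sum_filter_of_ne]
      intro q _ hq
      exact lt_of_le_of_ne (h0 q) (Ne.symm hq)
    rw [h1, h2]
    apply (hcon B ?_).le
    intro q hq
    simp only [hB, Finset.mem_filter, Finset.mem_image] at hq
    obtain ⟨⟨n, _, rfl⟩, h⟩ := hq
    exact ⟨by omega, h⟩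
  exact (summable_nat_add_iff k).1 hs

/-- the grid set -/
theorem missed_null (hd : Data u v c0) (f : ℕ → ℝ) (h0 : ∀ q, 0 ≤ f q) (h1 : ∀ q, f q ≤ 1 / 2)
    (par : ℕ) (hpar : ∀ q, 0 < f q → 0 < q ∧ q % 2 = par) {η : ℝ} (hη : 0 < η)
    (hphi : ∀ q, 0 < f q → η ≤ (Nat.totient q : ℝ) / q) (hns : ¬ Summable f) (k : ℕ) :
    volume (missed u v c0 f k) = 0 := by
  classical
  set W := missed u v c0 f k with hW
  have hWc : IsCompact W := missed_compact f k
  have hWm : MeasurableSet W := hWc.measurableSet
  have hWfin : volume W ≠ ⊤ := hWc.measure_lt_top.ne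
  by_contra hne
  have hw : 0 < volume.real W := by
    rw [Measure.real]
    exact ENNReal.toReal_pos hne hWfin
  set w := volume.real W with hwdef
  have hvR : (0 : ℝ) < v := by exact_mod_cast hd.hv
  set c1 : ℝ := η ^ 2 / 16 with hc1
  have hc1pos : 0 < c1 := by positivity
  set C : ℝ := 6 + 32 * v with hC
  have hCpos : 0 < C := by positivity
  set s : ℝ := 2 * C / (c1 * w) with hs
  have hspos : 0 < s := by positivity
  set ε : ℝ := c1 * w / (2 * s) with hε
  have hεpos : 0 < ε := by positivity
  -- thickening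
  have htend := tendsto_measure_cthickening_of_isCompact (μ := volume) hWc
  have hlt : volume W < volume W + ENNReal.ofReal ε :=
    ENNReal.lt_add_right hWfin (by simpa using hεpos)
  have hev := htend.eventually_lt_const hlt
  have hseq : Tendsto (fun n : ℕ => (1 : ℝ) / ((n : ℝ) + 1)) atTop (𝓝 0) :=
    tendsto_one_div_add_atTop_nhds_zero_nat
  obtain ⟨n, hn⟩ := (hseq.eventually hev).exists
  set m : ℕ := n + 1 with hm
  have hm0 : 0 < m := Nat.succ_pos n
  have hmR : (0 : ℝ) < m := by exact_mod_cast hm0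
  have hmn : (1 : ℝ) / ((n : ℝ) + 1) = 1 / m := by rw [hm]; push_cast; rfl
  rw [hmn] at hn
  -- grid
  set J : ℕ → Set ℝ := fun i => Set.Ico ((i : ℝ) / m) ((i : ℝ) / m + 1 / m) with hJ
  set I : Finset ℕ := (range m).filter (fun i => (J i ∩ W).Nonempty) with hI
  set U : Set ℝ := ⋃ i ∈ I, J i with hU
  have hUm : MeasurableSet U := by
    apply Finset.measurableSet_biUnion
    intro i _
    exact measurableSet_Ico
  have hJdisj : ∀ i j : ℕ, i ≠ j → Disjoint (J i) (J j) := by
    intro i j hij
    rw [Set.disjoint_left]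
    intro x hx hx'
    simp only [hJ, Set.mem_Ico] at hx hx'
    have e1 : (i : ℝ) / m + 1 / m = (i + 1) / m := by ring
    have e2 : (j : ℝ) / m + 1 / m = (j + 1) / m := by ring
    rw [e1] at hx
    rw [e2] at hx'
    have a1 := (div_le_iff₀ hmR).1 hx.1
    have a2 := (lt_div_iff₀ hmR).1 hx.2
    have b1 := (div_le_iff₀ hmR).1 hx'.1
    have b2 := (lt_div_iff₀ hmR).1 hx'.2
    have c1 : (i : ℝ) < j + 1 := by linarith
    have c2 : (j : ℝ) < i + 1 := by linarith
    have c1' : i < j + 1 := by exact_mod_cast c1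
    have c2' : j < i + 1 := by exact_mod_cast c2
    omega
  have hJvol : ∀ i, volume (J i) = ENNReal.ofReal (1 / m) := by
    intro i
    simp only [hJ, Real.volume_Ico]
    congr 1
    ring
  -- U inside the thickening
  have hUsub : U ⊆ Metric.cthickening (1 / (m : ℝ)) W := by
    intro x hx
    simp only [hU, Set.mem_iUnion, exists_prop] at hx
    obtain ⟨i, hi, hxi⟩ := hx
    simp only [hI, Finset.mem_filter] at hi
    obtain ⟨y, hyJ, hyW⟩ := hi.2
    apply Metric.mem_cthickening_of_dist_le x y _ _ hyW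
    simp only [hJ, Set.mem_Ico] at hxi hyJ
    rw [Real.dist_eq, abs_le]
    constructor <;> linarith [hxi.1, hxi.2, hyJ.1, hyJ.2]
  -- W covered by U up to the point 1
  have hWsub : W ⊆ U ∪ {1} := by
    intro x hx
    by_cases hx1 : x = 1
    · right; exact hx1
    left
    have hx01 : x ∈ Set.Icc (0 : ℝ) 1 := hx.1
    have hxlt : x < 1 := lt_of_le_of_ne hx01.2 hx1
    have hxm0 : 0 ≤ x * m := mul_nonneg hx01.1 hmR.le
    set i : ℕ := ⌊x * m⌋₊ with hi
    have hi1 : (i : ℝ) ≤ x * m := Nat.floor_le hxm0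
    have hi2 : x * m < i + 1 := Nat.lt_floor_add_one _
    have hxJ : x ∈ J i := by
      simp only [hJ, Set.mem_Ico]
      constructor
      · rw [div_le_iff₀ hmR]; exact hi1
      · have : (i : ℝ) / m + 1 / m = (i + 1) / m := by ring
        rw [this, lt_div_iff₀ hmR]; exact hi2
    have him : i < m := by
      have : (i : ℝ) < m := by
        calc (i : ℝ) ≤ x * m := hi1
          _ < 1 * m := by gcongr
          _ = m := one_mul _
      exact_mod_cast this
    simp only [hU, Set.mem_iUnion, exists_prop]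
    refine ⟨i, ?_, hxJ⟩
    simp only [hI, Finset.mem_filter, Finset.mem_range]
    exact ⟨him, x, hxJ, hx⟩
  have hcardI : w ≤ (I.card : ℝ) * (1 / m) := by
    have h2 : volume W ≤ ENNReal.ofReal ((I.card : ℝ) * (1 / m)) := by
      calc volume W ≤ volume (U ∪ {1}) := measure_mono hWsub
        _ ≤ volume U + volume ({1} : Set ℝ) := measure_union_le _ _
        _ = volume U := by rw [Real.volume_singleton, add_zero]
        _ ≤ ∑ i ∈ I, volume (J i) := measure_biUnion_finset_le _ _
        _ = ENNReal.ofReal ((I.card : ℝ) * (1 / m)) := by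
            rw [Finset.sum_congr rfl (fun i _ => hJvol i), Finset.sum_const, nsmul_eq_mul,
              ENNReal.ofReal_mul (by positivity), ENNReal.ofReal_natCast]
    rw [hwdef, Measure.real]
    calc (volume W).toReal ≤ (ENNReal.ofReal ((I.card : ℝ) * (1 / m))).toReal :=
          ENNReal.toReal_mono ENNReal.ofReal_ne_top h2
      _ = _ := ENNReal.toReal_ofReal (by positivity)
  -- the measure
  set ν : Measure ℝ := volume.restrict (Set.Icc (0 : ℝ) 1) with hν
  have hUW : ν.real (U \ W) ≤ ε := by
    have h2 : volume (U \ W) ≤ ENNReal.ofReal ε := by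
      have h3 : volume (Metric.cthickening (1 / (m : ℝ)) W \ W) < ENNReal.ofReal ε := by
        rw [measure_sdiff (Metric.self_subset_cthickening W) hWm.nullMeasurableSet hWfin]
        apply ENNReal.sub_lt_of_lt_add
        · exact measure_mono (Metric.self_subset_cthickening W)
        · rw [add_comm]; exact hn
      exact le_trans (measure_mono (Set.sdiff_subset_sdiff_left hUsub)) h3.le
    have h4 : ν (U \ W) ≤ ENNReal.ofReal ε := le_trans (Measure.restrict_apply_le _ _) h2
    rw [Measure.real]
    calc (ν (U \ W)).toReal ≤ (ENNReal.ofReal ε).toReal :=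
          ENNReal.toReal_mono ENNReal.ofReal_ne_top h4
      _ = ε := ENNReal.toReal_ofReal hεpos.le
  -- local lower bound threshold
  obtain ⟨q0, hq0⟩ := local_lower hd hη hm0
  obtain ⟨B, hB, hBsum⟩ := exists_block f h0 hns (max k q0)
  set Ψ : ℝ := ∑ q ∈ B, f q with hΨ
  have hΨpos : 0 < Ψ := by linarith
  set F : ℕ → Set ℝ := fun q => Fset u v c0 (f q) q with hF
  have hFm : ∀ q ∈ B, MeasurableSet (F q) := fun q _ => (Fset_open _ _ _ _ _).measurableSet
  have hdis : ∀ q ∈ B, Disjoint W (F q) := by
    intro q hq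
    rw [Set.disjoint_left]
    intro x hx hxF
    have h2 := hx.2
    simp only [Set.mem_iInter, Set.mem_ofPred_eq] at h2
    exact h2 q (le_trans (le_max_left _ _) (hB q hq).1) hxF
  have key := second_moment_bound ν B F hFm U W hUm hWm hdis (s * Ψ) (by positivity)
  -- lower bound of the first moment
  have hlow : c1 * w * Ψ ≤ ∑ q ∈ B, ν.real (U ∩ F q) := by
    rw [hΨ, Finset.mul_sum]
    apply Finset.sum_le_sum
    intro q hq
    have hqf := (hB q hq).2
    have hqpos := (hpar q hqf).1
    have hqq0 : q0 ≤ q := le_trans (le_max_right _ _) (hB q hq).1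
    have hJle : ∀ i ∈ I, ENNReal.ofReal (c1 * (1 / m) * f q) ≤ volume (J i ∩ F q) := by
      intro i _
      exact hq0 q hqq0 hqpos (hphi q hqf) (f q) hqf (h1 q) _
    have hsubIcc : ∀ i ∈ I, J i ⊆ Set.Icc (0 : ℝ) 1 := by
      intro i hi x hx
      simp only [hI, Finset.mem_filter, Finset.mem_range] at hi
      simp only [hJ, Set.mem_Ico] at hx
      constructor
      · exact le_trans (by positivity) hx.1
      · have h5 : (i : ℝ) + 1 ≤ m := by exact_mod_cast hi.1
        have e1 : (i : ℝ) / m + 1 / m = (i + 1) / m := by ring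
        have h6 : ((i : ℝ) + 1) / m ≤ 1 := by
          rw [div_le_one hmR]; exact h5
        linarith [hx.2]
    have hUF : U ∩ F q = ⋃ i ∈ I, (J i ∩ F q) := by
      rw [hU, Set.iUnion₂_inter]
    have hvol : ν (U ∩ F q) = ∑ i ∈ I, volume (J i ∩ F q) := by
      rw [hUF, measure_biUnion_finset]
      · apply Finset.sum_congr rfl
        intro i hi
        rw [hν, Measure.restrict_apply' measurableSet_Icc]
        congr 1
        apply Set.inter_eq_left.2
        exact Set.inter_subset_left.trans (hsubIcc i hi)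
      · intro i _ j _ hij
        exact (hJdisj i j hij).mono Set.inter_subset_left Set.inter_subset_left
      · intro i _
        exact measurableSet_Ico.inter (hFm q hq)
    have hge : ENNReal.ofReal (c1 * w * f q) ≤ ν (U ∩ F q) := by
      calc ENNReal.ofReal (c1 * w * f q)
          ≤ ENNReal.ofReal ((I.card : ℝ) * (c1 * (1 / m) * f q)) := by
            apply ENNReal.ofReal_le_ofReal
            calc c1 * w * f q ≤ c1 * ((I.card : ℝ) * (1 / m)) * f q := by gcongr
              _ = _ := by ring
        _ = ∑ i ∈ I, ENNReal.ofReal (c1 * (1 / m) * f q) := by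
            rw [Finset.sum_const, nsmul_eq_mul, ENNReal.ofReal_mul (by positivity),
              ENNReal.ofReal_natCast]
        _ ≤ ∑ i ∈ I, volume (J i ∩ F q) := Finset.sum_le_sum hJle
        _ = ν (U ∩ F q) := hvol.symm
    rw [Measure.real]
    exact (ENNReal.ofReal_le_iff_le_toReal (measure_ne_top _ _)).1 hge
  -- upper bound of the second moment
  have hup : ∑ q ∈ B, ∑ r ∈ B, ν.real (F q ∩ F r) ≤ C * Ψ ^ 2 := by
    have hpair : ∀ q ∈ B, ∀ r ∈ B, ν.real (F q ∩ F r) ≤
        (if q = r then 6 * f q else 0) + 32 * v * f q * f r := by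
      intro q hq r hr
      have hqf := (hB q hq).2
      have hrf := (hB r hr).2
      have hqpos := (hpar q hqf).1
      have hrpos := (hpar r hrf).1
      have hνv : ν (F q ∩ F r) = volume (Set.Icc (0 : ℝ) 1 ∩ (F q ∩ F r)) := by
        rw [hν, Measure.restrict_apply' measurableSet_Icc, Set.inter_comm]
      by_cases hqr : q = r
      · subst hqr
        rw [if_pos rfl, Measure.real, hνv, Set.inter_self]
        have h5 := diag_bound u v c0 hqf (h1 q) hqpos
        have h6 : (volume (Set.Icc (0 : ℝ) 1 ∩ F q)).toReal ≤ 6 * f q := by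
          calc _ ≤ (ENNReal.ofReal (6 * f q)).toReal :=
                ENNReal.toReal_mono ENNReal.ofReal_ne_top h5
            _ = 6 * f q := ENNReal.toReal_ofReal (by positivity)
        have h7 : 0 ≤ 32 * (v : ℝ) * f q * f q := by positivity
        linarith
      · rw [if_neg hqr, zero_add, Measure.real, hνv]
        have h5 := overlap_bound hd hqf (h1 q) hrf (h1 r) hqpos hrpos
          ((hpar q hqf).2.trans (hpar r hrf).2.symm) hqr
        calc _ ≤ (ENNReal.ofReal (32 * v * f q * f r)).toReal :=
              ENNReal.toReal_mono ENNReal.ofReal_ne_top h5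
          _ = 32 * v * f q * f r := ENNReal.toReal_ofReal (by positivity)
    calc ∑ q ∈ B, ∑ r ∈ B, ν.real (F q ∩ F r)
        ≤ ∑ q ∈ B, ∑ r ∈ B, ((if q = r then 6 * f q else 0) + 32 * v * f q * f r) :=
          Finset.sum_le_sum (fun q hq => Finset.sum_le_sum (fun r hr => hpair q hq r hr))
      _ = 6 * Ψ + 32 * v * Ψ ^ 2 := by
          simp only [Finset.sum_add_distrib]
          congr 1
          · rw [hΨ, Finset.mul_sum]
            apply Finset.sum_congr rfl
            intro q hq
            rw [Finset.sum_ite_eq, if_pos hq]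
          · rw [hΨ, pow_two, Finset.sum_mul_sum, Finset.mul_sum]
            apply Finset.sum_congr rfl
            intro q _
            rw [Finset.mul_sum]
            apply Finset.sum_congr rfl
            intro r _
            ring
      _ ≤ C * Ψ ^ 2 := by
          rw [hC]
          nlinarith
  -- contradiction
  have h8 : c1 * w * Ψ ≤ 1 / (2 * (s * Ψ)) * (C * Ψ ^ 2) + s * Ψ / 2 * ε := by
    calc c1 * w * Ψ ≤ ∑ q ∈ B, ν.real (U ∩ F q) := hlow
      _ ≤ _ := key
      _ ≤ _ := by gcongr
  have h9 : 1 / (2 * (s * Ψ)) * (C * Ψ ^ 2) = (c1 * w / 4) * Ψ := by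
    rw [hs]
    field_simp
    ring
  have h10 : s * Ψ / 2 * ε = (c1 * w / 4) * Ψ := by
    rw [hε]
    field_simp
    ring
  rw [h9, h10] at h8
  have h11 : 0 < c1 * w * Ψ := by positivity
  linarith

end Pool.Agent.DSRat
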