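import Mathlib
import Pool.Agent.DSRat.Main

set_option autoImplicit false

/-!
# The inhomogeneous Duffin–Schaeffer statement under comparability, for rational shifts

For every nonzero rational `γ` (in particular every nonzero integer) and every `ψ ≥ 0` such that
`∑ φ(q) ψ(q) / q = ∞` and such that the comparability condition holds for infinitely many `Q`,
almost every `x ∈ [0,1]` satisfies `|q x - p - γ| < ψ q` with `gcd (p, q) = 1` for infinitely
many `q`.
-/

namespace Pool.Agent.DSRat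

open MeasureTheory Filter

/-- comparability at infinitely many `Q` lets us pass to the `q` with `φ(q)/q ≥ c/2`. -/
lemma not_summable_restrict (ψ : ℕ → ℝ) (h0 : ∀ q, 0 ≤ ψ q)
    (hns : ¬ Summable (fun q : ℕ => (Nat.totient q : ℝ) * ψ q / (q : ℝ))) (c : ℝ) (hc : 0 < c)
    (hfr : ∃ᶠ Q : ℕ in atTop, c * (∑ q ∈ Finset.Icc 1 Q, ψ q) ≤
      ∑ q ∈ Finset.Icc 1 Q, (Nat.totient q : ℝ) * ψ q / (q : ℝ)) :
    ¬ Summable (fun q : ℕ => if 0 < q ∧ c / 2 ≤ (Nat.totient q : ℝ) / q then ψ q else 0) := by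
  classical
  intro hsum
  set g : ℕ → ℝ := fun q => if 0 < q ∧ c / 2 ≤ (Nat.totient q : ℝ) / q then ψ q else 0 with hg
  have hg0 : ∀ q, 0 ≤ g q := by
    intro q
    simp only [hg]
    split_ifs
    · exact h0 q
    · exact le_refl _
  set M : ℝ := ∑' q, g q with hM
  have hM' : ∀ s : Finset ℕ, ∑ q ∈ s, g q ≤ M := fun s => hsum.sum_le_tsum s (fun q _ => hg0 q)
  have hle : ∀ q : ℕ, (Nat.totient q : ℝ) / q ≤ 1 := by
    intro q
    rcases Nat.eq_zero_or_pos q with h | h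
    · simp [h]
    · have hq : (0 : ℝ) < q := by exact_mod_cast h
      rw [div_le_one hq]
      exact_mod_cast Nat.totient_le q
  -- the sums over `Icc 1 Q` of `φψ/q` are unbounded
  have hf0 : ∀ q : ℕ, 0 ≤ (Nat.totient q : ℝ) * ψ q / (q : ℝ) := by
    intro q
    have := h0 q
    positivity
  have htend := (not_summable_iff_tendsto_nat_atTop_of_nonneg hf0).1 hns
  have hbig := (tendsto_atTop.1 htend) (2 * M / c + 1)
  obtain ⟨N, hN⟩ := eventually_atTop.1 hbig
  obtain ⟨Q, hQN, hQ⟩ := (frequently_atTop.1 hfr) N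
  have hrange : ∑ q ∈ Finset.range (Q + 1), (Nat.totient q : ℝ) * ψ q / (q : ℝ) =
      ∑ q ∈ Finset.Icc 1 Q, (Nat.totient q : ℝ) * ψ q / (q : ℝ) := by
    have : Finset.range (Q + 1) = insert 0 (Finset.Icc 1 Q) := by
      ext x
      simp only [Finset.mem_range, Finset.mem_insert, Finset.mem_Icc]
      omega
    rw [this, Finset.sum_insert (by simp)]
    simp
  have h1 : 2 * M / c + 1 ≤ ∑ q ∈ Finset.Icc 1 Q, (Nat.totient q : ℝ) * ψ q / (q : ℝ) := by
    rw [← hrange]
    exact hN (Q + 1) (by omega)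
  have h2 : ∑ q ∈ Finset.Icc 1 Q, (Nat.totient q : ℝ) * ψ q / (q : ℝ) ≤
      ∑ q ∈ Finset.Icc 1 Q, ψ q := by
    apply Finset.sum_le_sum
    intro q _
    have := hle q
    calc (Nat.totient q : ℝ) * ψ q / (q : ℝ) = (Nat.totient q : ℝ) / q * ψ q := by ring
      _ ≤ 1 * ψ q := mul_le_mul_of_nonneg_right this (h0 q)
      _ = ψ q := one_mul _
  have h3 : ∑ q ∈ Finset.Icc 1 Q, (Nat.totient q : ℝ) * ψ q / (q : ℝ) ≤
      ∑ q ∈ Finset.Icc 1 Q, (g q + c / 2 * ψ q) := by
    apply Finset.sum_le_sum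
    intro q hq
    have hq1 : 0 < q := by
      simp only [Finset.mem_Icc] at hq
      omega
    have e : (Nat.totient q : ℝ) * ψ q / (q : ℝ) = (Nat.totient q : ℝ) / q * ψ q := by ring
    rw [e]
    have hψ := h0 q
    by_cases hcase : c / 2 ≤ (Nat.totient q : ℝ) / q
    · have : g q = ψ q := by
        simp only [hg]
        rw [if_pos ⟨hq1, hcase⟩]
      rw [this]
      have h4 := mul_le_mul_of_nonneg_right (hle q) hψ
      have h5 : 0 ≤ c / 2 * ψ q := by positivity
      linarith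
    · push Not at hcase
      have h4 := mul_le_mul_of_nonneg_right hcase.le hψ
      have h5 := hg0 q
      linarith
  rw [Finset.sum_add_distrib, ← Finset.mul_sum] at h3
  have h4 := hM' (Finset.Icc 1 Q)
  have h5 : c * (∑ q ∈ Finset.Icc 1 Q, ψ q) ≤ M + c / 2 * ∑ q ∈ Finset.Icc 1 Q, ψ q := by
    linarith
  have h6 : c * (∑ q ∈ Finset.Icc 1 Q, ψ q) ≤ 2 * M := by linarith
  have h7 : c * (2 * M / c + 1) ≤ 2 * M := by
    calc c * (2 * M / c + 1) ≤ c * (∑ q ∈ Finset.Icc 1 Q, ψ q) := by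
          apply mul_le_mul_of_nonneg_left _ hc.le
          linarith
      _ ≤ 2 * M := h6
  have h8 : c * (2 * M / c + 1) = 2 * M + c := by field_simp
  linarith

/-- truncation at `1/2` preserves divergence -/
lemma not_summable_min (g : ℕ → ℝ) (hns : ¬ Summable g) :
    ¬ Summable (fun q => min (g q) (1 / 2)) := by
  intro hs
  apply hns
  have h0 := hs.tendsto_atTop_zero
  have hev : ∀ᶠ q in atTop, min (g q) (1 / 2) < 1 / 2 :=
    h0.eventually_lt_const (by norm_num)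
  obtain ⟨N, hN⟩ := eventually_atTop.1 hev
  rw [← summable_nat_add_iff N]
  have hs' := (summable_nat_add_iff N).2 hs
  apply hs'.congr
  intro n
  have h1 := hN (n + N) (by omega)
  have h2 : g (n + N) < 1 / 2 := by
    by_contra hcon
    push Not at hcon
    rw [min_eq_right hcon] at h1
    exact lt_irrefl _ h1
  exact min_eq_left h2.le

/-- The statement for every rational shift. -/
theorem rational_shift (γ : ℚ) (ψ : ℕ → ℝ) (h0 : ∀ q : ℕ, 0 ≤ ψ q)
    (hns : ¬ Summable (fun q : ℕ => (Nat.totient q : ℝ) * ψ q / (q : ℝ)))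
    (hcomp : ∃ c : ℝ, 0 < c ∧ ∃ᶠ Q : ℕ in atTop,
      c * (∑ q ∈ Finset.Icc 1 Q, ψ q) ≤
        ∑ q ∈ Finset.Icc 1 Q, (Nat.totient q : ℝ) * ψ q / (q : ℝ)) :
    volume {x : ℝ | x ∈ Set.Icc (0 : ℝ) 1 ∧
      ∃ᶠ q : ℕ in atTop, ∃ p : ℤ, Int.gcd p (q : ℤ) = 1 ∧
        |(q : ℝ) * x - (p : ℝ) - (γ : ℝ)| < ψ q} = 1 := by
  classical
  obtain ⟨c, hc, hfr⟩ := hcomp
  have hns1 := not_summable_restrict ψ h0 hns c hc hfr
  set g : ℕ → ℝ := fun q => if 0 < q ∧ c / 2 ≤ (Nat.totient q : ℝ) / q then ψ q else 0 with hg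
  have hg0 : ∀ q, 0 ≤ g q := by
    intro q
    simp only [hg]
    split_ifs
    · exact h0 q
    · exact le_refl _
  -- parity pigeonhole
  obtain ⟨par, hpar⟩ : ∃ par : ℕ, ¬ Summable (fun q => if q % 2 = par then g q else 0) := by
    by_contra hcon
    push Not at hcon
    apply hns1
    have h2 := (hcon 0).add (hcon 1)
    apply h2.congr
    intro q
    rcases Nat.mod_two_eq_zero_or_one q with h | h <;> simp [h]
  set g' : ℕ → ℝ := fun q => if q % 2 = par then g q else 0 with hg'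
  have hg'0 : ∀ q, 0 ≤ g' q := by
    intro q
    simp only [hg']
    split_ifs
    · exact hg0 q
    · exact le_refl _
  have hns2 := not_summable_min g' hpar
  set f : ℕ → ℝ := fun q => min (g' q) (1 / 2) with hf
  have hf0 : ∀ q, 0 ≤ f q := fun q => le_min (hg'0 q) (by norm_num)
  have hf1 : ∀ q, f q ≤ 1 / 2 := fun q => min_le_right _ _
  have hfpos : ∀ q, 0 < f q → (0 < q ∧ q % 2 = par) ∧ c / 2 ≤ (Nat.totient q : ℝ) / q := by
    intro q hq
    have h1 : 0 < g' q := lt_of_lt_of_le hq (min_le_left _ _)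
    simp only [hg'] at h1
    split_ifs at h1 with h2
    · simp only [hg] at h1
      split_ifs at h1 with h3
      · exact ⟨⟨h3.1, h2⟩, h3.2⟩
      · exact absurd h1 (lt_irrefl _)
    · exact absurd h1 (lt_irrefl _)
  have hfψ : ∀ q, f q ≤ ψ q := by
    intro q
    refine le_trans (min_le_left _ _) ?_
    simp only [hg']
    split_ifs with h2
    · simp only [hg]
      split_ifs
      · exact le_refl _
      · exact h0 q
    · exact h0 q
  -- the data
  have hden : (0 : ℤ) < (γ.den : ℤ) := by exact_mod_cast γ.den_pos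
  have hcop : IsCoprime γ.num (γ.den : ℤ) := by
    rw [Int.isCoprime_iff_gcd_eq_one]
    exact γ.reduced
  obtain ⟨c0, hd⟩ := exists_data γ.num (γ.den : ℤ) hden hcop
  have hγ : (γ : ℝ) = (γ.num : ℝ) / ((γ.den : ℤ) : ℝ) := by
    have := Rat.cast_def (K := ℝ) γ
    rw [this]
    push_cast
    rfl
  set A : Set ℝ := {x : ℝ | x ∈ Set.Icc (0 : ℝ) 1 ∧
      ∃ᶠ q : ℕ in atTop, ∃ p : ℤ, Int.gcd p (q : ℤ) = 1 ∧
        |(q : ℝ) * x - (p : ℝ) - (γ : ℝ)| < ψ q} with hA
  have hnull : volume (⋃ k : ℕ, missed γ.num (γ.den : ℤ) c0 f k) = 0 := by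
    apply measure_iUnion_null
    intro k
    exact missed_null hd f hf0 hf1 par (fun q hq => (hfpos q hq).1) (half_pos hc)
      (fun q hq => (hfpos q hq).2) hns2 k
  have hcover : Set.Icc (0 : ℝ) 1 ⊆ A ∪ ⋃ k : ℕ, missed γ.num (γ.den : ℤ) c0 f k := by
    intro x hx
    by_cases hxA : x ∈ A
    · left; exact hxA
    right
    have h1 : ¬ ∃ᶠ q : ℕ in atTop, ∃ p : ℤ, Int.gcd p (q : ℤ) = 1 ∧
        |(q : ℝ) * x - (p : ℝ) - (γ : ℝ)| < ψ q := fun h => hxA ⟨hx, h⟩
    rw [not_frequently] at h1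
    obtain ⟨k, hk⟩ := eventually_atTop.1 h1
    simp only [Set.mem_iUnion]
    refine ⟨k + 1, hx, ?_⟩
    simp only [Set.mem_iInter, Set.mem_ofPred_eq, Set.mem_compl_iff]
    intro q hq hmem
    obtain ⟨p, hp1, hp2⟩ := hmem
    apply hk q (by omega)
    refine ⟨p, good_gcd hd (by omega) hp1, ?_⟩
    rw [hγ]
    exact lt_of_lt_of_le hp2 (hfψ q)
  apply le_antisymm
  · calc volume A ≤ volume (Set.Icc (0 : ℝ) 1) := measure_mono (fun x hx => hx.1)
      _ = 1 := by rw [Real.volume_Icc]; norm_num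
  · calc (1 : ENNReal) = volume (Set.Icc (0 : ℝ) 1) := by rw [Real.volume_Icc]; norm_num
      _ ≤ volume (A ∪ ⋃ k : ℕ, missed γ.num (γ.den : ℤ) c0 f k) := measure_mono hcover
      _ ≤ volume A + volume (⋃ k : ℕ, missed γ.num (γ.den : ℤ) c0 f k) := measure_union_le _ _
      _ = volume A := by rw [hnull, add_zero]

end Pool.Agent.DSRat
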